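import Mathlib

/-!
Props for THEOREM O (Beck-Fiala, MP_e8ee11_co): discrepancy at most C sqrt(t) L^(3/2),
L = log (t log n).  See bf_helper50b.md and bf50_lean.md in the store.
-/

namespace Pool.Agent.Helper50.BO

open Matrix

/-! ### matrices -/

/-- sum of rank one matrices -/
noncomputable def Gm {V J : Type} [Fintype J] (a : V → J → ℝ) (U : Finset V) : Matrix J J ℝ :=
  ∑ v ∈ U, Matrix.vecMulVec (a v) (a v)

/-- trace of the power of the inverse -/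
noncomputable def TP {J : Type} [Fintype J] [DecidableEq J] (M : Matrix J J ℝ) (q : ℕ) : ℝ :=
  ((M⁻¹) ^ q).trace

/-- leverage of a vector -/
noncomputable def lv {J : Type} [Fintype J] [DecidableEq J] (M : Matrix J J ℝ) (a : J → ℝ) : ℝ :=
  a ⬝ᵥ (M⁻¹ *ᵥ a)

/-- S1a: adding a small rank one matrix decreases the trace of the power of the inverse. -/
def S1a : Prop := ∀ (J : Type) [Fintype J] [DecidableEq J] (M : Matrix J J ℝ) (a : J → ℝ) (q : ℕ)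
  (s : ℝ), M.PosDef → 0 ≤ s → q * s * lv M a ≤ 1 →
    (M + s • Matrix.vecMulVec a a).PosDef ∧ TP (M + s • Matrix.vecMulVec a a) q ≤ TP M q

/-- S1b: the coin lemma. -/
def S1b : Prop := ∀ (J : Type) [Fintype J] [DecidableEq J] (M : Matrix J J ℝ) (a : J → ℝ) (q : ℕ)
  (p : ℝ), M.PosDef → 1 ≤ q → 0 < p → p ≤ 1 / 4 → 8 * q * lv M a ≤ 1 →
    (M - (p / 4) • Matrix.vecMulVec a a).PosDef ∧
    (1 - p) * TP (M - (p / 4) • Matrix.vecMulVec a a) q + p * TP (M + Matrix.vecMulVec a a) q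
      ≤ TP M q

/-- S1c: small trace gives a lower bound of the matrix. -/
def S1c : Prop := ∀ (J : Type) [Fintype J] [DecidableEq J] (M : Matrix J J ℝ) (q : ℕ) (c : ℝ),
  M.PosDef → 1 ≤ q → 0 < c → TP M q < (1 / c) ^ q → ∀ y : J → ℝ, c * (y ⬝ᵥ y) ≤ y ⬝ᵥ (M *ᵥ y)

/-- log det functional, ridge `lam` -/
noncomputable def FF {V J : Type} [Fintype J] [DecidableEq J] (a : V → J → ℝ) (lam : J → ℝ)
    (U : Finset V) : ℝ :=
  Real.log (Matrix.diagonal lam + Gm a U).det - ∑ j, Real.log (lam j)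

/-- S2a: monotone in the set, antitone in the ridge. -/
def S2a : Prop := ∀ (V J : Type) [Fintype J] [DecidableEq J] [DecidableEq V] (a : V → J → ℝ)
  (lam lam' : J → ℝ) (U U' : Finset V), (∀ j, 0 < lam' j) → (∀ j, lam' j ≤ lam j) → U ⊆ U' →
    FF a lam U ≤ FF a lam' U'

/-- S2b: a new vector increases the functional by log(1 + leverage). -/
def S2b : Prop := ∀ (V J : Type) [Fintype J] [DecidableEq J] [DecidableEq V] (a : V → J → ℝ)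
  (lam : J → ℝ) (U : Finset V) (v : V), (∀ j, 0 < lam j) → v ∉ U →
    FF a lam (insert v U) = FF a lam U + Real.log (1 + lv (Matrix.diagonal lam + Gm a U) (a v))

/-- S2c: Hadamard. -/
def S2c : Prop := ∀ (V J : Type) [Fintype J] [DecidableEq J] (a : V → J → ℝ)
  (lam : J → ℝ) (U : Finset V), (∀ j, 0 < lam j) →
    FF a lam U ≤ ∑ j, Real.log (1 + (∑ v ∈ U, a v j ^ 2) / lam j)

/-! ### schedule -/

/-- elements of rank at least `i` -/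
def lvl {V : Type} [Fintype V] (k : V → ℕ) (i : ℕ) : Finset V := Finset.univ.filter fun v => i ≤ k v

/-- elements of rank exactly `i` -/
def exq {V : Type} [Fintype V] (k : V → ℕ) (i : ℕ) : Finset V := Finset.univ.filter fun v => k v = i

/-- incidence columns -/
def inc {V J : Type} [DecidableEq V] (S : J → Finset V) (v : V) (j : J) : ℝ :=
  if v ∈ S j then 1 else 0

/-- smallest rank in a row -/
noncomputable def kmin {V : Type} (T : Finset V) (k : V → ℕ) : ℕ := sInf (k '' (T : Set V))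

/-- ridge of the row `T` at level `i` -/
noncomputable def ridge {V : Type} (Λ R0 : ℕ) (T : Finset V) (k : V → ℕ) (i : ℕ) : ℝ :=
  if Λ ^ 2 ≤ (T.filter fun v => i ≤ k v).card then 1
  else if ∀ v ∈ T, i ≤ k v then max 1 ((Λ : ℝ) / (R0 : ℝ) ^ (kmin T k - i))
  else Λ

/-- the matrix of level `i` : ridge plus Gram matrix of the elements of rank at least `i` -/
noncomputable def LM {V J : Type} [Fintype V] [Fintype J] [DecidableEq V] [DecidableEq J]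
    (S : J → Finset V) (Λ R0 : ℕ) (k : V → ℕ) (i : ℕ) : Matrix J J ℝ :=
  Matrix.diagonal (fun j => ridge Λ R0 (S j) k i) + Gm (inc S) (lvl k i)

/-- S3: the schedule. `R = R0^2`, domination ridge `Lh`, `q` = exponent of the trace potential. -/
def S3 : Prop := ∀ (V J : Type) [Fintype V] [Fintype J] [DecidableEq V] [DecidableEq J]
  (S : J → Finset V) (t Λ R0 Lh q : ℕ), 1 ≤ t → Nonempty V → Nonempty J →
  (∀ v, (Finset.univ.filter fun j => v ∈ S j).card ≤ t) →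
  32 * t ≤ Λ → 2 ≤ R0 → 1 ≤ q → 16 * q * t ≤ Lh →
  3 * (Fintype.card V + 2) * Fintype.card J < 2 ^ q →
  160 * t * (Lh + Λ ^ 2) ≤ R0 ^ 2 →
  ∃ k : V → ℕ,
    (∀ v, (R0 ^ 2) ^ k v ≤ 4 * Fintype.card V) ∧
    (∀ i u, k u = i → lv (LM S Λ R0 k (i + 1)) (inc S u) ≤ 32 * t / Λ) ∧
    (∀ i j u w, ((S j).filter fun v => i ≤ k v).card ≤ 17 * R0 ^ 2 * (Lh + Λ ^ 2) →
      u ∈ S j → k u = i → w ∈ S j → k w ≤ i + 2) ∧
    (∀ i, ∀ y : J → ℝ, ∑ u ∈ exq k i, (inc S u ⬝ᵥ y) ^ 2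
      ≤ 16 * R0 ^ 2 * (Lh * (y ⬝ᵥ y) + ∑ v ∈ lvl k (i + 1), (inc S v ⬝ᵥ y) ^ 2))

/-! ### one round -/

/-- R1: linear algebra of one round. -/
def R1 : Prop := ∀ (V J : Type) [Fintype V] [Fintype J] [DecidableEq V] [DecidableEq J]
  (a : V → J → ℝ) (E R : Finset V) (lam : J → ℝ) (Λ τ B : ℝ),
  Disjoint E R → 1 ≤ Λ → 0 ≤ τ → 0 ≤ B → (∀ j, 1 ≤ lam j) → (∀ j, lam j ≤ Λ) →
  (∀ u ∈ E, lv (Matrix.diagonal lam + Gm a R) (a u) ≤ τ / Λ) →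
  (∀ y : J → ℝ, ∑ u ∈ E, (a u ⬝ᵥ y) ^ 2
      ≤ B * (∑ j, lam j * y j ^ 2 + ∑ v ∈ R, (a v ⬝ᵥ y) ^ 2)) →
  ∃ c : J ⊕ V → V → ℝ, (∀ r, ∀ u, u ∉ E → c r u = 0) ∧ (∀ u, ∑ r, c r u ^ 2 ≤ τ) ∧
    (∀ r, ∑ u, c r u ^ 2 ≤ B * Λ) ∧
    (∀ j, (∀ v ∈ E ∪ R, a v j = 0) → ∀ u, c (Sum.inl j) u = 0) ∧
    ∀ ξ : V → ℝ, ∃ δ : V → ℝ, (∀ v, v ∉ R → δ v = 0) ∧
      (∀ v, √Λ * |δ v| ≤ |∑ u, c (Sum.inr v) u * ξ u|) ∧
      ∀ j, ∑ u ∈ E, a u j * ξ u + ∑ v ∈ R, a v j * δ v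
        = √(lam j / Λ) * ∑ u, c (Sum.inl j) u * ξ u

/-! ### round theorem -/

/-- the logarithm of the round theorem -/
noncomputable def LL (B N : ℝ) : ℝ := 1 + Real.log B + Real.log (Real.log N)

/-- RT: rounding a real matrix with columns of norm at most 1 and rows of norm^2 at most B. -/
def RT (C : ℝ) : Prop := ∀ (V J : Type) [Fintype V] [Fintype J] (c : J → V → ℝ) (z : V → ℝ)
  (B N : ℝ), 1 ≤ B → (Fintype.card V : ℝ) + Fintype.card J + 3 ≤ N →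
  (∀ i, ∑ j, c j i ^ 2 ≤ 1) → (∀ j, ∑ i, c j i ^ 2 ≤ B) → (∀ i, |z i| ≤ 1) →
  ∃ y : V → ℝ, (∀ i, |y i| = 1) ∧ ∀ j, |∑ i, c j i * (y i - z i)| ≤ C * (LL B N * √(LL B N))

/-! ### decomposition of the round theorem -/

/-- AS: the adaptive Gram-Schmidt walk of helper22, sum version (mu = 1). -/
def AS : Prop := ∀ (V J X : Type) [Fintype V] [Fintype J] [Fintype X] (c : J → V → ℝ) (κ : ℝ)
  (a : X → J → ℝ) (om : X → ℝ) (K : ℕ) (z : V → ℝ), 0 < κ → (∀ x j, 0 ≤ a x j) →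
  (∀ x j, a x j ≤ 1) → (∀ x, 0 ≤ om x) → (∀ i, |z i| ≤ 1) →
  ∑ x, om x * Real.exp (6 * ∑ j, a x j) < 1 →
  ∃ (y : V → ℝ) (l : J → ℕ), (∀ i, |y i| ≤ 1) ∧
    (∀ i, |y i| < 1 → κ < ∑ j, 2 ^ l j * c j i ^ 2 ∨ ∃ j, c j i ≠ 0 ∧ l j = K + 1) ∧
    ∑ x, om x * Real.exp (∑ j, 2 ^ l j * a x j) < 1 ∧
    ∀ j, |∑ i, c j i * (y i - z i)| ≤ 8 * √κ * (K + 1) * 2

/-- ST: structure of the partial rounding: few fractional elements, small clusters. -/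
def ST (C : ℝ) : Prop := ∀ (V J : Type) [Fintype V] [Fintype J] (c : J → V → ℝ) (z : V → ℝ)
  (B N : ℝ), 1 ≤ B → (Fintype.card V : ℝ) + Fintype.card J + 3 ≤ N →
  (∀ i, ∑ j, c j i ^ 2 ≤ 1) → (∀ j, ∑ i, c j i ^ 2 ≤ B) → (∀ i, |z i| ≤ 1) →
  ∃ (y : V → ℝ) (g : V → V) (al om : ℝ) (nc : ℕ), 0 < al ∧ al ≤ 1 ∧ 0 ≤ om ∧ 1 ≤ nc ∧
    (∀ i, |y i| ≤ 1) ∧ (∀ j, |∑ i, c j i * (y i - z i)| ≤ C * (LL B N * √(LL B N))) ∧
    (∀ v, (Set.ncard {u | |y u| < 1 ∧ g u = v}) ≤ nc) ∧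
    (∀ j u u', |y u| < 1 → |y u'| < 1 → al < c j u ^ 2 → al < c j u' ^ 2 → g u = g u') ∧
    (∀ j, ∑ u, (if |y u| < 1 ∧ c j u ^ 2 ≤ al then c j u ^ 2 else 0) ≤ om) ∧
    8 * nc * om * Real.log (8 * N) ≤ 1 ∧ Real.log (nc / al) ≤ C * LL B N

/-- FL: completion of the small clusters. -/
def FL (C : ℝ) : Prop := ∀ (V J : Type) [Fintype V] [Fintype J] (c : J → V → ℝ) (y : V → ℝ)
  (g : V → V) (al om N : ℝ) (nc : ℕ), 0 < al → al ≤ 1 → 0 ≤ om → 1 ≤ nc →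
  (Fintype.card V : ℝ) + Fintype.card J + 3 ≤ N → (∀ i, ∑ j, c j i ^ 2 ≤ 1) → (∀ i, |y i| ≤ 1) →
  (∀ v, (Set.ncard {u | |y u| < 1 ∧ g u = v}) ≤ nc) →
  (∀ j u u', |y u| < 1 → |y u'| < 1 → al < c j u ^ 2 → al < c j u' ^ 2 → g u = g u') →
  (∀ j, ∑ u, (if |y u| < 1 ∧ c j u ^ 2 ≤ al then c j u ^ 2 else 0) ≤ om) →
  8 * nc * om * Real.log (8 * N) ≤ 1 →
  ∃ χ : V → ℝ, (∀ i, |χ i| = 1) ∧ (∀ i, |y i| = 1 → χ i = y i) ∧
    ∀ j, |∑ i, c j i * (χ i - y i)| ≤ C * √(1 + Real.log (nc / al))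

/-- LD: linear discrepancy is at most twice the hereditary discrepancy. -/
def LD : Prop := ∀ (V J : Type) [Fintype V] [Fintype J] (c : J → V → ℝ) (F : Set V) (T : ℝ),
  (∀ U : Set V, U ⊆ F → ∃ e : V → ℝ, (∀ i ∈ U, |e i| = 1) ∧ (∀ i, i ∉ U → e i = 0) ∧
    ∀ j, |∑ i, c j i * e i| ≤ T) →
  ∀ y : V → ℝ, (∀ i, |y i| ≤ 1) → (∀ i, i ∉ F → |y i| = 1) →
  ∃ χ : V → ℝ, (∀ i, |χ i| = 1) ∧ (∀ i, |y i| = 1 → χ i = y i) ∧
    ∀ j, |∑ i, c j i * (χ i - y i)| ≤ 2 * T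

/-- GS: signs for a real matrix with columns of norm at most one and m nonzero rows. -/
def GS (C : ℝ) : Prop := ∀ (V J : Type) [Fintype V] [Fintype J] (c : J → V → ℝ) (m : ℕ), 1 ≤ m →
  (∀ i, ∑ j, c j i ^ 2 ≤ 1) → (Set.ncard {j | ∃ i, c j i ≠ 0}) ≤ m →
  ∃ e : V → ℝ, (∀ i, |e i| = 1) ∧ ∀ j, |∑ i, c j i * e i| ≤ C * √(1 + Real.log m)

/-- HO: random signs. -/
def HO : Prop := ∀ (I J : Type) [Fintype I] [Fintype J] (x : J → I → ℝ) (w : ℝ),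
  (∀ j, ∑ i, x j i ^ 2 ≤ w) →
  ∃ e : I → ℝ, (∀ i, |e i| = 1) ∧
    ∀ j, |∑ i, x j i * e i| ≤ √(2 * w * Real.log (2 * Fintype.card J + 2))

/-- final theorem -/
def Fin0 (C : ℝ) : Prop := ∀ (V J : Type) [Fintype V] [Fintype J] [DecidableEq V]
  (S : J → Finset V) (t : ℕ), 1 ≤ t → (∀ v, (Finset.univ.filter fun j => v ∈ S j).card ≤ t) →
  ∃ χ : V → ℤ, (∀ v, χ v = 1 ∨ χ v = -1) ∧
    ∀ j, |((∑ v ∈ S j, χ v : ℤ) : ℝ)| ≤ C * (√t *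
      (1 + Real.log t + Real.log (1 + Real.log (Fintype.card V + 1))) *
      √(1 + Real.log t + Real.log (1 + Real.log (Fintype.card V + 1))))

end Pool.Agent.Helper50.BO
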