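import Pool.Agent.Helper50.BO.St

namespace Pool.Agent.Helper50.BO.S2

open Matrix Finset Pool.Agent.Helper50.BO

set_option linter.unusedSectionVars false

variable {V J : Type} [Fintype J] [DecidableEq J]

/-- the Gram matrix applied to a vector -/
theorem gm_mulVec (a : V → J → ℝ) (R : Finset V) (y : J → ℝ) (j : J) :
    (Gm a R *ᵥ y) j = ∑ v ∈ R, a v j * (a v ⬝ᵥ y) := by
  classical
  unfold Gm
  rw [Matrix.sum_mulVec, Finset.sum_apply]
  refine Finset.sum_congr rfl fun v _ => ?_
  simp only [Matrix.mulVec, Matrix.vecMulVec_apply, dotProduct, Finset.mul_sum]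
  exact Finset.sum_congr rfl fun i _ => by ring

/-- quadratic form of the Gram matrix -/
theorem gm_quad (a : V → J → ℝ) (R : Finset V) (y : J → ℝ) :
    y ⬝ᵥ (Gm a R *ᵥ y) = ∑ v ∈ R, (a v ⬝ᵥ y) ^ 2 := by
  classical
  have : ∀ j, y j * (Gm a R *ᵥ y) j = ∑ v ∈ R, (y j * a v j) * (a v ⬝ᵥ y) := by
    intro j
    rw [gm_mulVec, Finset.mul_sum]
    exact Finset.sum_congr rfl fun v _ => by ring
  unfold dotProduct at *
  rw [Finset.sum_congr rfl fun j _ => this j, Finset.sum_comm]
  refine Finset.sum_congr rfl fun v _ => ?_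
  rw [← Finset.sum_mul, sq]
  congr 1
  exact Finset.sum_congr rfl fun i _ => by ring

/-- quadratic form of ridge plus Gram matrix -/
theorem quad (a : V → J → ℝ) (R : Finset V) (lam : J → ℝ) (y : J → ℝ) :
    y ⬝ᵥ ((Matrix.diagonal lam + Gm a R) *ᵥ y)
      = ∑ j, lam j * y j ^ 2 + ∑ v ∈ R, (a v ⬝ᵥ y) ^ 2 := by
  classical
  rw [Matrix.add_mulVec, dotProduct_add, gm_quad]
  congr 1
  simp only [dotProduct, Matrix.mulVec_diagonal]
  exact Finset.sum_congr rfl fun i _ => by ring

theorem gm_symm (a : V → J → ℝ) (R : Finset V) : (Gm a R)ᵀ = Gm a R := by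
  classical
  unfold Gm
  rw [Matrix.transpose_sum]
  refine Finset.sum_congr rfl fun v _ => ?_
  ext i j
  simp [Matrix.vecMulVec_apply, mul_comm]

theorem ridge_symm (a : V → J → ℝ) (R : Finset V) (lam : J → ℝ) :
    (Matrix.diagonal lam + Gm a R)ᵀ = Matrix.diagonal lam + Gm a R := by
  rw [Matrix.transpose_add, gm_symm, Matrix.diagonal_transpose]

/-- ridge plus Gram matrix is positive definite -/
theorem ridge_posDef (a : V → J → ℝ) (R : Finset V) (lam : J → ℝ) (hl : ∀ j, 0 < lam j) :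
    (Matrix.diagonal lam + Gm a R).PosDef := by
  classical
  refine Matrix.PosDef.of_dotProduct_mulVec_pos ?_ ?_
  · rw [Matrix.IsHermitian, Matrix.conjTranspose_eq_transpose_of_trivial]
    exact ridge_symm a R lam
  · intro x hx
    rw [star_trivial, quad]
    obtain ⟨j, hj⟩ := Function.ne_iff.mp hx
    have h1 : 0 < ∑ j, lam j * x j ^ 2 := by
      refine Finset.sum_pos' (fun i _ => mul_nonneg (hl i).le (sq_nonneg _))
        ⟨j, Finset.mem_univ _, mul_pos (hl j) ?_⟩
      have hj' : x j ≠ 0 := by simpa using hj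
      positivity
    have h2 : 0 ≤ ∑ v ∈ R, (a v ⬝ᵥ x) ^ 2 := Finset.sum_nonneg fun v _ => sq_nonneg _
    linarith

section inv

variable (a : V → J → ℝ) (R : Finset V) (lam : J → ℝ) (hl : ∀ j, 0 < lam j)

include hl

/-- the inverse is an inverse -/
theorem mul_inv_vec (y : J → ℝ) :
    (Matrix.diagonal lam + Gm a R) *ᵥ ((Matrix.diagonal lam + Gm a R)⁻¹ *ᵥ y) = y := by
  have h := (ridge_posDef a R lam hl).isUnit
  rw [Matrix.mulVec_mulVec, Matrix.mul_nonsing_inv _ ((Matrix.isUnit_iff_isUnit_det _).mp h),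
    Matrix.one_mulVec]

end inv

theorem gm_insert [DecidableEq V] (a : V → J → ℝ) (U : Finset V) (v : V) (hv : v ∉ U) :
    Gm a (insert v U) = Gm a U + Matrix.vecMulVec (a v) (a v) := by
  unfold Gm
  rw [Finset.sum_insert hv, add_comm]

theorem det_add_vec (M : Matrix J J ℝ) (a : J → ℝ) (hM : M.PosDef) :
    (M + Matrix.vecMulVec a a).det = M.det * (1 + lv M a) := by
  have hu : IsUnit M.det := (Matrix.isUnit_iff_isUnit_det _).mp hM.isUnit
  have h := Matrix.det_add_replicateCol_mul_replicateRow (ι := Unit) hu a a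
  have e1 : Matrix.replicateCol Unit a * Matrix.replicateRow Unit a = Matrix.vecMulVec a a := by
    ext i j
    simp [Matrix.mul_apply, Matrix.vecMulVec_apply]
  rw [e1] at h
  rw [h]
  congr 1
  rw [Matrix.det_unique]
  simp only [Matrix.add_apply, Matrix.one_apply_eq]
  congr 1
  rw [Matrix.mul_assoc]
  unfold lv
  simp [Matrix.mul_apply, dotProduct, Matrix.mulVec]

theorem lv_nonneg' (M : Matrix J J ℝ) (a : J → ℝ) (hM : M.PosDef) : 0 ≤ lv M a := by
  unfold lv
  have h := hM.inv.posSemidef.dotProduct_mulVec_nonneg a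
  simpa using h

theorem s2b : S2b := by
  intro V J _ _ _ a lam U v hl hv
  have hM := ridge_posDef a U lam hl
  unfold FF
  rw [gm_insert a U v hv, ← add_assoc, det_add_vec _ _ hM,
    Real.log_mul hM.det_pos.ne' (by have := lv_nonneg' _ (a v) hM; linarith)]
  ring

/-- leverage is antitone in the matrix -/
theorem lv_anti (a : V → J → ℝ) (U : Finset V) {lam lam' : J → ℝ} (hl' : ∀ j, 0 < lam' j)
    (hle : ∀ j, lam' j ≤ lam j) (w : J → ℝ) :
    lv (Matrix.diagonal lam + Gm a U) w ≤ lv (Matrix.diagonal lam' + Gm a U) w := by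
  have hl : ∀ j, 0 < lam j := fun j => (hl' j).trans_le (hle j)
  set M := Matrix.diagonal lam + Gm a U with hM
  set M' := Matrix.diagonal lam' + Gm a U with hM'
  have hMp : M.PosDef := ridge_posDef a U lam hl
  have hMp' : M'.PosDef := ridge_posDef a U lam' hl'
  set x := M⁻¹ *ᵥ w with hx
  set y := M'⁻¹ *ᵥ w with hy
  have hMx : M *ᵥ x = w := mul_inv_vec a U lam hl w
  have hMy : M' *ᵥ y = w := mul_inv_vec a U lam' hl' w
  have e1 : lv M w = w ⬝ᵥ x := rfl
  have e2 : lv M' w = w ⬝ᵥ y := rfl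
  have h1 : x ⬝ᵥ (M' *ᵥ x) ≤ x ⬝ᵥ (M *ᵥ x) := by
    rw [hM, hM', quad, quad]
    apply add_le_add _ le_rfl
    exact Finset.sum_le_sum fun j _ => mul_le_mul_of_nonneg_right (hle j) (sq_nonneg _)
  have h2 : x ⬝ᵥ (M *ᵥ x) = w ⬝ᵥ x := by rw [hMx, dotProduct_comm]
  have h3 : 0 ≤ (x - y) ⬝ᵥ (M' *ᵥ (x - y)) := by
    have h := hMp'.posSemidef.dotProduct_mulVec_nonneg (x - y)
    simpa using h
  have h4 : (x - y) ⬝ᵥ (M' *ᵥ (x - y)) = x ⬝ᵥ (M' *ᵥ x) - 2 * (w ⬝ᵥ x) + w ⬝ᵥ y := by
    rw [Matrix.mulVec_sub, sub_dotProduct, dotProduct_sub, dotProduct_sub, hMy]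
    have h5 : y ⬝ᵥ (M' *ᵥ x) = x ⬝ᵥ (M' *ᵥ y) := by
      rw [Matrix.dotProduct_mulVec, ← Matrix.mulVec_transpose, hM', ridge_symm, dotProduct_comm]
    rw [h5, hMy, dotProduct_comm x w, dotProduct_comm y w]
    ring
  rw [e1, e2]
  linarith

theorem FF_mono_set [DecidableEq V] (a : V → J → ℝ) {lam : J → ℝ} (hl : ∀ j, 0 < lam j)
    {U U' : Finset V} (h : U ⊆ U') : FF a lam U ≤ FF a lam U' := by
  have key : ∀ W : Finset V, FF a lam U ≤ FF a lam (U ∪ W) := by
    intro W
    induction W using Finset.induction_on with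
    | empty => rw [Finset.union_empty]
    | insert v W hv ih =>
      by_cases h2 : v ∈ U ∪ W
      · rw [Finset.union_insert, Finset.insert_eq_of_mem h2]; exact ih
      · rw [Finset.union_insert, s2b V J a lam (U ∪ W) v hl h2]
        have h3 := lv_nonneg' _ (a v) (ridge_posDef a (U ∪ W) lam hl)
        have := Real.log_nonneg (show 1 ≤ 1 + lv (Matrix.diagonal lam + Gm a (U ∪ W)) (a v) by
          linarith)
        linarith
  have h2 := key U'
  rwa [Finset.union_eq_right.2 h] at h2

theorem FF_anti_ridge [DecidableEq V] (a : V → J → ℝ) {lam lam' : J → ℝ} (hl' : ∀ j, 0 < lam' j)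
    (hle : ∀ j, lam' j ≤ lam j) (U : Finset V) : FF a lam U ≤ FF a lam' U := by
  have hl : ∀ j, 0 < lam j := fun j => (hl' j).trans_le (hle j)
  induction U using Finset.induction_on with
  | empty =>
    have h : ∀ μ : J → ℝ, (∀ j, 0 < μ j) → FF a μ ∅ = 0 := by
      intro μ hμ
      unfold FF Gm
      rw [Finset.sum_empty, add_zero, Matrix.det_diagonal, Real.log_prod (fun j _ => (hμ j).ne'),
        sub_self]
    rw [h lam hl, h lam' hl']
  | insert v U hv ih =>
    rw [s2b V J a lam U v hl hv, s2b V J a lam' U v hl' hv]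
    apply add_le_add ih
    have h1 := lv_nonneg' _ (a v) (ridge_posDef a U lam hl)
    exact Real.log_le_log (by linarith) (by linarith [lv_anti a U hl' hle (a v)])

theorem s2a : S2a := by
  intro V J _ _ _ a lam lam' U U' hl' hle hU
  exact (FF_anti_ridge a hl' hle U).trans (FF_mono_set a hl' hU)

theorem log_det_le (M : Matrix J J ℝ) (hM : M.PosDef) :
    Real.log M.det ≤ M.trace - Fintype.card J := by
  have h1 := hM.isHermitian
  have h2 : M.det = ∏ i, h1.eigenvalues i := by
    have := h1.det_eq_prod_eigenvalues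
    simpa using this
  have h3 : M.trace = ∑ i, h1.eigenvalues i := by
    have := h1.trace_eq_sum_eigenvalues
    simpa using this
  rw [h2, h3, Real.log_prod (fun i _ => (hM.eigenvalues_pos i).ne')]
  have h4 : ∑ i, Real.log (h1.eigenvalues i) ≤ ∑ i, (h1.eigenvalues i - 1) :=
    Finset.sum_le_sum fun i _ => Real.log_le_sub_one_of_pos (hM.eigenvalues_pos i)
  rw [Finset.sum_sub_distrib] at h4
  simpa using h4

/-- Hadamard -/
theorem hadamard (M : Matrix J J ℝ) (hM : M.PosDef) :
    Real.log M.det ≤ ∑ j, Real.log (M j j) := by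
  have hd : ∀ j, 0 < M j j := fun j => hM.diag_pos
  set s : J → ℝ := fun j => 1 / √(M j j) with hs
  have hs0 : ∀ j, 0 < s j := fun j => by simp only [hs]; have := hd j; positivity
  have hs2 : ∀ j, s j * M j j * s j = 1 := by
    intro j
    simp only [hs]
    have h1 : √(M j j) ≠ 0 := (Real.sqrt_pos.2 (hd j)).ne'
    have h2 := Real.mul_self_sqrt (hd j).le
    field_simp
    nlinarith
  set N : Matrix J J ℝ := Matrix.diagonal s * M * Matrix.diagonal s with hN
  have hNp : N.PosDef := by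
    have h1 : N = (Matrix.diagonal s)ᴴ * M * Matrix.diagonal s := by
      rw [hN, Matrix.conjTranspose_eq_transpose_of_trivial, Matrix.diagonal_transpose]
    refine Matrix.PosDef.of_dotProduct_mulVec_pos ?_ ?_
    · rw [h1]
      exact Matrix.isHermitian_conjTranspose_mul_mul _ hM.isHermitian
    · intro x hx
      have h2 : star x ⬝ᵥ (N *ᵥ x) = star (Matrix.diagonal s *ᵥ x) ⬝ᵥ (M *ᵥ (Matrix.diagonal s *ᵥ x)) := by
        rw [h1, ← Matrix.mulVec_mulVec, ← Matrix.mulVec_mulVec, Matrix.star_mulVec,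
          ← Matrix.dotProduct_mulVec]
      rw [h2]
      apply hM.dotProduct_mulVec_pos
      intro h3
      apply hx
      ext j
      have h4 := congrFun h3 j
      rw [Matrix.mulVec_diagonal, Pi.zero_apply] at h4
      rcases mul_eq_zero.1 h4 with h5 | h5
      · exact absurd h5 (hs0 j).ne'
      · simpa using h5
  have htr : N.trace = Fintype.card J := by
    unfold Matrix.trace
    have : ∀ j, N.diag j = 1 := by
      intro j
      rw [Matrix.diag_apply, hN, Matrix.mul_diagonal, Matrix.diagonal_mul]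
      exact hs2 j
    rw [Finset.sum_congr rfl fun j _ => this j]
    simp
  have h1 := log_det_le N hNp
  rw [htr, sub_self] at h1
  have hdet : N.det = (∏ j, s j) * M.det * ∏ j, s j := by
    rw [hN, Matrix.det_mul, Matrix.det_mul, Matrix.det_diagonal]
  have hprod : 0 < ∏ j, s j := Finset.prod_pos fun j _ => hs0 j
  rw [hdet, Real.log_mul (mul_pos hprod hM.det_pos).ne' hprod.ne',
    Real.log_mul hprod.ne' hM.det_pos.ne', Real.log_prod (fun j _ => (hs0 j).ne')] at h1
  have h2 : ∑ j, Real.log (M j j) = - (2 * ∑ j, Real.log (s j)) := by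
    rw [Finset.mul_sum, ← Finset.sum_neg_distrib]
    refine Finset.sum_congr rfl fun j _ => ?_
    simp only [hs]
    rw [one_div, Real.log_inv, Real.log_sqrt (hd j).le]
    ring
  linarith

theorem s2c : S2c := by
  intro V J _ _ a lam U hl
  classical
  have hM := ridge_posDef a U lam hl
  have h1 := hadamard _ hM
  unfold FF
  have h2 : ∀ j, (Matrix.diagonal lam + Gm a U) j j = lam j + ∑ v ∈ U, a v j ^ 2 := by
    intro j
    rw [Matrix.add_apply, Matrix.diagonal_apply_eq]
    unfold Gm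
    rw [Matrix.sum_apply]
    congr 1
    refine Finset.sum_congr rfl fun v _ => ?_
    rw [Matrix.vecMulVec_apply]; ring
  have h3 : ∀ j, Real.log (1 + (∑ v ∈ U, a v j ^ 2) / lam j)
      = Real.log ((Matrix.diagonal lam + Gm a U) j j) - Real.log (lam j) := by
    intro j
    have h0 : 0 ≤ ∑ v ∈ U, a v j ^ 2 := Finset.sum_nonneg fun _ _ => sq_nonneg _
    rw [h2 j, ← Real.log_div (by have := hl j; linarith) (hl j).ne']
    congr 1
    have := (hl j).ne'
    field_simp
  rw [Finset.sum_congr rfl fun j _ => h3 j, Finset.sum_sub_distrib]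
  linarith

end Pool.Agent.Helper50.BO.S2
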