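import Pool.Agent.Helper50.BO.Basic
import Pool.Agent.Helper50.BO.FinP3
import Pool.Agent.Helper50.BO.S2
import Pool.Agent.Helper53.BO.LD
import Pool.Agent.Helper61.BO.R1P
import Pool.Agent.Helper68.BO.THP
import Pool.Agent.Helper78.BO.RTPf
import Pool.Agent.Helper81.BO.S1
import Pool.Agent.Helper92.BO.S3P

namespace Pool.Agent.Helper50.BO

open Matrix Finset Pool.Agent.Helper66.BO Pool.Agent.Helper60.BO

/-- THEOREM P -/
theorem thmP : ∃ C : ℝ, FinP0 C :=
  finP_proof
    (Pool.Agent.Helper92.BP.s3p_proof _root_.Helper81.BO.s1a _root_.Helper81.BO.s1b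
      _root_.Helper81.BO.s1c S2.s2a S2.s2b S2.s2c)
    Pool.Agent.Helper61.BO.r1p_proof Pool.Agent.Helper68.BO.thp_proof
    (by norm_num) Pool.Agent.Helper78.BO.rtp60

theorem MM_mono {t a b : ℝ} (ha : 0 ≤ a) (hab : a ≤ b) : MM t a ≤ MM t b := by
  unfold MM
  have h0 : 0 ≤ Real.log (a + 1) := Real.log_nonneg (by linarith)
  have h1 : Real.log (a + 1) ≤ Real.log (b + 1) := Real.log_le_log (by linarith) (by linarith)
  have h2 : Real.log (1 + Real.log (a + 1)) ≤ Real.log (1 + Real.log (b + 1)) :=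
    Real.log_le_log (by linarith) (by linarith)
  linarith

/-- the degree part of the logarithm is harmless -/
theorem gs_MM_le {t n : ℝ} (ht : 1 ≤ t) (hn : 0 ≤ n) :
    gs (MM t n) ≤ 24 * √t + 3 * gs (1 + Real.log (1 + Real.log (n + 1))) := by
  set l := 1 + Real.log (1 + Real.log (n + 1)) with hl
  have h0 : 0 ≤ Real.log (n + 1) := Real.log_nonneg (by linarith)
  have hl1 : 1 ≤ l := by
    have := Real.log_nonneg (show 1 ≤ 1 + Real.log (n + 1) by linarith)
    rw [hl]; linarith
  have hlt := Real.log_nonneg ht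
  have hM : MM t n = Real.log t + l := by unfold MM; rw [hl]; ring
  have h2 : gs 2 ≤ 3 := by
    unfold gs
    have h1 : √(2 : ℝ) ≤ 3 / 2 := by
      rw [Real.sqrt_le_left (by norm_num)]; norm_num
    have h2 := Real.log_two_lt_d9
    have h3 := Real.log_two_gt_d9
    nlinarith [Real.sqrt_nonneg (2 : ℝ)]
  have hst : 1 ≤ √t := by rw [Real.one_le_sqrt]; exact ht
  have hgl : 0 ≤ gs l := gs_nonneg hl1
  have hlogt : Real.log t ≤ 2 * √t := by
    have e : Real.log t = 2 * Real.log √t := by rw [Real.log_sqrt (by linarith)]; ring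
    have := Real.log_le_sub_one_of_pos (show 0 < √t by linarith)
    rw [e]; linarith
  rcases le_total (Real.log t) l with h | h
  · have h3 : gs (MM t n) ≤ gs (2 * l) := gs_mono (by rw [hM]; linarith) (by rw [hM]; linarith)
    have h4 := gs_mul (show (1 : ℝ) ≤ 2 by norm_num) hl1
    have h5 : gs 2 * gs l ≤ 3 * gs l := mul_le_mul_of_nonneg_right h2 hgl
    linarith
  · have h1 : 1 ≤ Real.log t := hl1.trans h
    have h3 : gs (MM t n) ≤ gs (2 * Real.log t) :=
      gs_mono (by rw [hM]; linarith) (by rw [hM]; linarith)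
    have h4 := gs_mul (show (1 : ℝ) ≤ 2 by norm_num) h1
    have h6 := gs_nonneg h1
    have h5 : gs 2 * gs (Real.log t) ≤ 3 * gs (Real.log t) := mul_le_mul_of_nonneg_right h2 h6
    have h7 := gs_le h1
    linarith

/-- THEOREM P with the smaller of the number of points and the number of sets. -/
theorem top {C : ℝ} (hP : FinP0 C) : ∃ C' : ℝ, 0 ≤ C' ∧ ∀ (V J : Type) [Fintype V] [Fintype J]
    [DecidableEq V] (S : J → Finset V) (t : ℕ), 1 ≤ t →
    (∀ v, (Finset.univ.filter fun j => v ∈ S j).card ≤ t) →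
    ∃ χ : V → ℤ, (∀ v, χ v = 1 ∨ χ v = -1) ∧ ∀ j, |((∑ v ∈ S j, χ v : ℤ) : ℝ)|
      ≤ C' * (√t + gs (1 + Real.log (1 + Real.log ((min (Fintype.card V) (Fintype.card J) : ℕ)
        + 1)))) := by
  classical
  set D := max C 0 with hD
  have hD0 : 0 ≤ D := le_max_right _ _
  -- hereditary form
  have her : ∀ (V J : Type) [Fintype V] [Fintype J] [DecidableEq V] (S : J → Finset V) (t : ℕ),
      1 ≤ t → (∀ v, (Finset.univ.filter fun j => v ∈ S j).card ≤ t) → ∀ N : ℕ, ∀ U : Finset V,
      U.card ≤ N → ∃ e : V → ℝ, (∀ i ∈ U, |e i| = 1) ∧ (∀ i, i ∉ U → e i = 0) ∧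
        ∀ j, |∑ i, inc S i j * e i| ≤ D * (√t + gs (MM t N)) := by
    intro V J _ _ _ S t ht hdeg N U hU
    obtain ⟨χ, c1, c2⟩ := hP U J (fun j => Finset.univ.filter fun u : U => (u : V) ∈ S j) t ht
      (fun u => by
        refine le_trans (le_of_eq ?_) (hdeg u)
        congr 1
        ext j; simp)
    refine ⟨fun i => if h : i ∈ U then (χ ⟨i, h⟩ : ℝ) else 0, fun i hi => ?_, fun i hi => ?_,
      fun j => ?_⟩
    · simp only [hi, dif_pos]
      rcases c1 ⟨i, hi⟩ with h | h <;> rw [h] <;> simp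
    · simp only [hi, dif_neg, not_false_eq_true]
    · have h1 := c2 j
      have e1 : ∑ i, inc S i j * (if h : i ∈ U then (χ ⟨i, h⟩ : ℝ) else 0)
          = ((∑ v ∈ Finset.univ.filter fun u : U => (u : V) ∈ S j, χ v : ℤ) : ℝ) := by
        push_cast
        rw [Finset.sum_filter]
        have a1 : ∑ i, inc S i j * (if h : i ∈ U then (χ ⟨i, h⟩ : ℝ) else 0)
            = ∑ i ∈ U, inc S i j * (if h : i ∈ U then (χ ⟨i, h⟩ : ℝ) else 0) := by
          symm
          apply Finset.sum_subset (Finset.subset_univ _)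
          intro i _ hi
          simp only [hi, dif_neg, not_false_eq_true, mul_zero]
        rw [a1, ← Finset.sum_coe_sort U]
        refine Finset.sum_congr rfl fun i _ => ?_
        simp only [i.2, dif_pos]
        unfold inc
        split_ifs <;> simp
      rw [e1]
      refine h1.trans ?_
      have ht1 : (1 : ℝ) ≤ t := by exact_mod_cast ht
      have hUN : ((Fintype.card U : ℕ) : ℝ) ≤ N := by rw [Fintype.card_coe]; exact_mod_cast hU
      have g1 := MM_ge ht1 (Nat.cast_nonneg (Fintype.card U))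
      have g2 : gs (MM t (Fintype.card U)) ≤ gs (MM t N) :=
        gs_mono g1 (MM_mono (Nat.cast_nonneg _) hUN)
      have g3 : 0 ≤ gs (MM t (Fintype.card U)) := gs_nonneg g1
      have g4 : C ≤ D := le_max_left _ _
      unfold gs MM at g2 g3 ⊢
      have g5 := Real.sqrt_nonneg (t : ℝ)
      exact mul_le_mul g4 (by linarith) (by linarith) hD0
  refine ⟨50 * D, by positivity, ?_⟩
  intro V J _ _ _ S t ht hdeg
  have ht1 : (1 : ℝ) ≤ t := by exact_mod_cast ht
  set N := min (Fintype.card V) (Fintype.card J) with hN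
  have hfin : ∃ χ : V → ℝ, (∀ i, |χ i| = 1) ∧ ∀ j, |∑ i, inc S i j * χ i|
      ≤ 2 * (D * (√t + gs (MM t N))) := by
    have hb0 : 0 ≤ D * (√t + gs (MM t N)) := by
      have := gs_nonneg (MM_ge ht1 (Nat.cast_nonneg N))
      positivity
    rcases le_total (Fintype.card V) (Fintype.card J) with h | h
    · obtain ⟨e, e1, -, e3⟩ := her V J S t ht hdeg N Finset.univ (by
        rw [Finset.card_univ, hN, min_eq_left h])
      exact ⟨e, fun i => e1 i (Finset.mem_univ i), fun j => (e3 j).trans (by linarith)⟩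
    · obtain ⟨y, y1, y2, y3⟩ := basic (fun (j : J) (i : V) => inc S i j)
      have hLD := Pool.Agent.Helper53.BO.ld_proof V J (fun j i => inc S i j) {i | |y i| < 1}
        (D * (√t + gs (MM t N))) (fun U hU => by
          obtain ⟨e, e1, e2, e3⟩ := her V J S t ht hdeg N (Finset.univ.filter fun i => i ∈ U) (by
            rw [hN, min_eq_right h]
            refine le_trans (Finset.card_le_card fun i hi => ?_) y3
            exact Finset.mem_filter.2 ⟨Finset.mem_univ _, hU (Finset.mem_filter.1 hi).2⟩)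
          exact ⟨e, fun i hi => e1 i (Finset.mem_filter.2 ⟨Finset.mem_univ _, hi⟩),
            fun i hi => e2 i fun h => hi (Finset.mem_filter.1 h).2, e3⟩) y y1 (fun i hi => by
          have hi := not_lt.1 (show ¬ |y i| < 1 from hi)
          exact le_antisymm (y1 i) hi)
      obtain ⟨χ, c1, -, c3⟩ := hLD
      refine ⟨χ, c1, fun j => ?_⟩
      have h1 := c3 j
      have e1 : ∑ i, inc S i j * (χ i - y i) = ∑ i, inc S i j * χ i := by
        have : ∑ i, inc S i j * (χ i - y i) = ∑ i, inc S i j * χ i - ∑ i, inc S i j * y i := by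
          rw [← Finset.sum_sub_distrib]
          exact Finset.sum_congr rfl fun i _ => by ring
        rw [this, y2 j, sub_zero]
      rw [e1] at h1
      exact h1
  obtain ⟨χ, c1, c2⟩ := hfin
  refine ⟨fun v => if χ v = 1 then 1 else -1, fun v => ?_, fun j => ?_⟩
  · by_cases h : χ v = 1
    · left; simp [h]
    · right; simp [h]
  · have h2 : ((∑ v ∈ S j, (if χ v = 1 then 1 else -1) : ℤ) : ℝ) = ∑ i, inc S i j * χ i := by
      have a1 : ∑ i, inc S i j * χ i = ∑ v ∈ S j, χ v := by
        have : ∀ i, inc S i j * χ i = if i ∈ S j then χ i else 0 := by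
          intro i; unfold inc; split_ifs <;> simp
        rw [Finset.sum_congr rfl fun i _ => this i, ← Finset.sum_filter]
        congr 1
        ext i; simp
      rw [a1]
      push_cast
      refine Finset.sum_congr rfl fun v _ => ?_
      by_cases h : χ v = 1
      · simp [h]
      · have h3 : χ v = -1 := by
          rcases abs_eq (zero_le_one) |>.1 (c1 v) with h4 | h4
          · exact absurd h4 h
          · exact h4
        simp [h3]
        norm_num
    rw [h2]
    refine (c2 j).trans ?_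
    have h3 := gs_MM_le ht1 (Nat.cast_nonneg N)
    have h4 := Real.sqrt_nonneg (t : ℝ)
    have h5 : 0 ≤ gs (1 + Real.log (1 + Real.log ((N : ℝ) + 1))) := by
      apply gs_nonneg
      have g0 : 0 ≤ Real.log ((N : ℝ) + 1) := Real.log_nonneg (by linarith [Nat.cast_nonneg (α := ℝ) N])
      have := Real.log_nonneg (show 1 ≤ 1 + Real.log ((N : ℝ) + 1) by linarith)
      linarith
    calc 2 * (D * (√t + gs (MM t N)))
        ≤ 2 * (D * (25 * (√t + gs (1 + Real.log (1 + Real.log ((N : ℝ) + 1)))))) := by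
          apply mul_le_mul_of_nonneg_left _ (by norm_num)
          apply mul_le_mul_of_nonneg_left _ hD0
          linarith
      _ = _ := by ring

end Pool.Agent.Helper50.BO
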