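import Pool.Agent.Helper50.BO.St
import Pool.Agent.Helper22.LT.Main

namespace Pool.Agent.Helper50.BO

open Pool.Agent.Helper22.LT Real
open scoped Classical

theorem as_proof : AS := by
  intro V J X _ _ _ c κ a om K z hκ ha ha1 hom hz hsum
  obtain ⟨y, l, h, hI, y2, y5⟩ := main_induction (X := X) c hκ (zero_le_one (α := ℝ)) ha ha1 hom (K := K) z _ z
    (fun _ => 0) (rs c z) le_rfl
    ⟨hz, fun j => Nat.zero_le _, fun j _ => by rw [sub_self, abs_zero]; exact dl_pos hκ zero_le_one _,
      fun j hj => rfl, fun j => by rw [sub_self, abs_zero]; unfold Hs; simp,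
      fun i _ => rfl, fun j _ => ⟨rfl, rfl⟩⟩ (by
      refine lt_of_le_of_lt (Finset.sum_le_sum fun t _ => ?_) hsum
      have h1 := P_init c hκ zero_le_one le_rfl (ha t) (ha1 t)
        (Al (Wset c κ K fun _ => 0) z) z
      rw [mul_one] at h1
      exact mul_le_mul_of_nonneg_left h1 (hom t))
  refine ⟨y, l, hI.hx, fun i hi => ?_, ?_, fun j => ?_⟩
  · by_contra hcon
    push Not at hcon
    have h1 : i ∈ Al (Wset c κ K l) y := by
      rw [mem_Al, mem_Wset]
      refine ⟨⟨hcon.1, fun j hj => ?_⟩, hi⟩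
      have g1 := hI.hl j
      have g2 := hcon.2 j hj
      omega
    rw [y2] at h1
    exact absurd h1 (Finset.notMem_empty i)
  · refine lt_of_le_of_lt (Finset.sum_le_sum fun t _ => ?_) y5
    apply mul_le_mul_of_nonneg_left _ (hom t)
    have g1 := P_ge c κ zero_le_one (ha t) ∅ y l h
    rw [one_mul] at g1
    exact g1
  · have e0 : ∑ i, c j i * (y i - z i) = rs c y j - rs c z j := by
      rw [← rs_sub]; rfl
    rw [e0]
    have e : rs c y j - rs c z j = (rs c y j - h j) + (h j - rs c z j) := by ring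
    have g0 : |rs c y j - rs c z j| ≤ Hs κ 1 (K + 1) := by
      rw [e]
      refine (abs_add_le _ _).trans ?_
      have g2 := hI.h3 j
      have g3 := dl_nonneg κ 1 (l j)
      rcases Nat.lt_or_ge K (l j) with hj | hj
      · have hj' : l j = K + 1 := by have := hI.hl j; omega
        rw [hI.h2 j hj', sub_self, abs_zero, zero_add, ← hj']
        exact g2
      · have g1 := hI.h1 j hj
        have g4 : Hs κ 1 (l j + 1) ≤ Hs κ 1 (K + 1) := Hs_mono κ 1 (Nat.succ_le_succ hj)
        have g5 : Hs κ 1 (l j + 1) = Hs κ 1 (l j) + 4 / 3 * dl κ 1 (l j) := by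
          unfold Hs; rw [Finset.sum_range_succ]
        linarith
    refine g0.trans ?_
    have h2 : ∀ k, dl κ 1 k ≤ 12 * √κ := by
      intro k
      unfold dl
      have hp : (1 : ℝ) ≤ 2 ^ k := one_le_pow₀ (by norm_num)
      have h3 : κ * (1 + 1 * 2 ^ k) / 2 ^ k ≤ κ * 4 := by
        rw [div_le_iff₀ (by positivity)]
        nlinarith
      have h4 : √(κ * (1 + 1 * 2 ^ k) / 2 ^ k) ≤ 2 * √κ := by
        refine (Real.sqrt_le_sqrt h3).trans ?_
        rw [Real.sqrt_mul hκ.le, show (4 : ℝ) = 2 ^ 2 by norm_num, Real.sqrt_sq (by norm_num)]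
        linarith
      linarith
    calc Hs κ 1 (K + 1) ≤ ∑ _k ∈ Finset.range (K + 1), 16 * √κ := by
          unfold Hs
          refine Finset.sum_le_sum fun k _ => ?_
          have := h2 k
          linarith
      _ = 8 * √κ * (K + 1) * 2 := by
          rw [Finset.sum_const, Finset.card_range, nsmul_eq_mul]; push_cast; ring

end Pool.Agent.Helper50.BO
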