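import Pool.Agent.Helper50.BO.St

namespace Pool.Agent.Helper50.BO

open Matrix Finset

variable {V J : Type} [Fintype V] [Fintype J] [DecidableEq V] [DecidableEq J]

omit [Fintype V] in
theorem sum_inc_sq (S : J → Finset V) (U : Finset V) (j : J) :
    ∑ u ∈ U, (inc S u ⬝ᵥ (Pi.single j (1 : ℝ))) ^ 2 = ((U.filter fun u => u ∈ S j).card : ℝ) := by
  have h : ∀ u, (inc S u ⬝ᵥ (Pi.single j (1 : ℝ))) ^ 2 = if u ∈ S j then (1 : ℝ) else 0 := by
    intro u
    rw [dotProduct_single, mul_one]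
    unfold inc
    split_ifs <;> norm_num
  rw [Finset.sum_congr rfl fun u _ => h u, Finset.sum_ite, Finset.sum_const_zero, add_zero,
    Finset.sum_const, nsmul_eq_mul, mul_one]

theorem card_exq_le {S : J → Finset V} {Λ R0 Lh : ℕ} {k : V → ℕ}
    (P3 : ∀ i, ∀ y : J → ℝ, ∑ u ∈ exq k i, (inc S u ⬝ᵥ y) ^ 2
      ≤ 16 * R0 ^ 2 * (Lh * (y ⬝ᵥ y) + ∑ v ∈ lvl k (i + 1), (inc S v ⬝ᵥ y) ^ 2))
    (j : J) (i : ℕ) (hi : ((S j).filter fun v => i + 1 ≤ k v).card < Λ ^ 2) :
    ((S j).filter fun v => i ≤ k v).card ≤ 17 * R0 ^ 2 * (Lh + Λ ^ 2) := by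
  have h1 := P3 i (Pi.single j 1)
  rw [sum_inc_sq, sum_inc_sq, single_dotProduct, Pi.single_eq_same, one_mul, mul_one] at h1
  have e1 : (exq k i).filter (fun u => u ∈ S j) = (S j).filter fun v => k v = i := by
    ext v; simp [exq, and_comm]
  have e2 : (lvl k (i + 1)).filter (fun u => u ∈ S j) = (S j).filter fun v => i + 1 ≤ k v := by
    ext v; simp only [lvl, mem_filter, mem_univ, true_and]; exact and_comm
  rw [e1, e2] at h1
  have h2 : ((S j).filter fun v => k v = i).card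
      ≤ 16 * R0 ^ 2 * (Lh + ((S j).filter fun v => i + 1 ≤ k v).card) := by
    exact_mod_cast h1
  have e3 : (S j).filter (fun v => i ≤ k v)
      = ((S j).filter fun v => k v = i) ∪ ((S j).filter fun v => i + 1 ≤ k v) := by
    ext v
    simp only [mem_filter, mem_union]
    constructor
    · rintro ⟨a, b⟩
      rcases Nat.lt_or_ge i (k v) with h | h
      · exact Or.inr ⟨a, h⟩
      · exact Or.inl ⟨a, le_antisymm h b⟩
    · rintro (⟨a, b⟩ | ⟨a, b⟩)
      · exact ⟨a, b.ge⟩
      · exact ⟨a, (Nat.le_succ i).trans b⟩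
  rw [e3]
  refine (card_union_le _ _).trans ?_
  have h3 : R0 ^ 2 = 0 ∨ 1 ≤ R0 ^ 2 := by
    rcases Nat.eq_zero_or_pos (R0 ^ 2) with h | h
    · exact Or.inl h
    · exact Or.inr h
  rcases h3 with h3 | h3
  · -- degenerate, then the first set is empty and so is everything
    rw [h3] at h2 ⊢
    simp only [mul_zero, zero_mul, nonpos_iff_eq_zero] at h2 ⊢
    rw [h2, zero_add]
    -- all levels are empty: use the sum over all ranks
    rw [Finset.card_eq_zero, Finset.filter_eq_empty_iff]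
    intro v hv hk
    have h4 := P3 (k v) (Pi.single j 1)
    rw [sum_inc_sq] at h4
    have h5 : (R0 : ℝ) ^ 2 = 0 := by exact_mod_cast h3
    rw [h5, mul_zero, zero_mul] at h4
    have h6 : ((exq k (k v)).filter fun u => u ∈ S j).card = 0 := by
      have : (((exq k (k v)).filter fun u => u ∈ S j).card : ℝ) ≤ 0 := h4
      exact_mod_cast le_antisymm this (by positivity)
    rw [Finset.card_eq_zero, Finset.filter_eq_empty_iff] at h6
    exact h6 (by simp [exq]) hv
  · calc ((S j).filter fun v => k v = i).card + ((S j).filter fun v => i + 1 ≤ k v).card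
        ≤ 16 * R0 ^ 2 * (Lh + Λ ^ 2) + Λ ^ 2 := by
          refine add_le_add (h2.trans ?_) hi.le
          exact Nat.mul_le_mul_left _ (Nat.add_le_add_left hi.le _)
      _ ≤ 16 * R0 ^ 2 * (Lh + Λ ^ 2) + R0 ^ 2 * (Lh + Λ ^ 2) := by
          refine Nat.add_le_add_left ?_ _
          calc Λ ^ 2 ≤ Lh + Λ ^ 2 := Nat.le_add_left _ _
            _ = 1 * (Lh + Λ ^ 2) := (one_mul _).symm
            _ ≤ _ := Nat.mul_le_mul_right _ h3
      _ = _ := by ring

omit [Fintype V] [DecidableEq V] in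
theorem kmin_le {T : Finset V} {k : V → ℕ} {v : V} (hv : v ∈ T) : kmin T k ≤ k v :=
  Nat.sInf_le ⟨v, hv, rfl⟩

omit [Fintype V] [DecidableEq V] in
theorem le_kmin {T : Finset V} {k : V → ℕ} {m : ℕ} (hT : T.Nonempty) (h : ∀ v ∈ T, m ≤ k v) :
    m ≤ kmin T k := by
  obtain ⟨v, hv⟩ := hT
  have h1 : (k '' (T : Set V)).Nonempty := ⟨k v, v, hv, rfl⟩
  obtain ⟨w, hw, h2⟩ := Nat.sInf_mem h1
  unfold kmin
  rw [← h2]
  exact h w hw

theorem geo (n N : ℕ) : ∑ m ∈ range N, (if m + 1 ≤ n then ((1 : ℝ) / 2) ^ (n - (m + 1)) else 0) ≤ 2 := by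
  have h1 : ∑ m ∈ range N, (if m + 1 ≤ n then ((1 : ℝ) / 2) ^ (n - (m + 1)) else 0)
      ≤ ∑ m ∈ range n, ((1 : ℝ) / 2) ^ (n - 1 - m) := by
    rw [← Finset.sum_filter]
    refine (Finset.sum_le_sum_of_subset_of_nonneg (t := range n) ?_ fun i _ _ => by positivity).trans
      (le_of_eq ?_)
    · intro m hm
      simp only [mem_filter, mem_range] at hm ⊢
      omega
    · refine Finset.sum_congr rfl fun m _ => ?_
      congr 1
      omega
  refine h1.trans ?_
  rw [Finset.sum_range_reflect (fun i => ((1 : ℝ) / 2) ^ i) n, geom_sum_eq (by norm_num)]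
  have h2 : (0 : ℝ) < (1 / 2) ^ n := by positivity
  rw [div_le_iff_of_neg (by norm_num)]
  linarith

theorem acc (S : J → Finset V) {Λ R0 Lh : ℕ} {k : V → ℕ} (hΛ : 1 ≤ Λ) (hR : 4 ≤ R0)
    (P2 : ∀ i j u w, ((S j).filter fun v => i ≤ k v).card ≤ 17 * R0 ^ 2 * (Lh + Λ ^ 2) →
      u ∈ S j → k u = i → w ∈ S j → k w ≤ i + 2)
    (P3 : ∀ i, ∀ y : J → ℝ, ∑ u ∈ exq k i, (inc S u ⬝ᵥ y) ^ 2
      ≤ 16 * R0 ^ 2 * (Lh * (y ⬝ᵥ y) + ∑ v ∈ lvl k (i + 1), (inc S v ⬝ᵥ y) ^ 2))
    (j : J) (N : ℕ) :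
    ∑ m ∈ range N, (if ∃ v ∈ S j, m ≤ k v then √(ridge Λ R0 (S j) k (m + 1) / Λ) else 0)
      ≤ N / √Λ + 5 := by
  classical
  have hΛ0 : (0 : ℝ) < Λ := by exact_mod_cast hΛ
  set n := kmin (S j) k with hn
  set P : ℕ → Prop := fun m => (∃ v ∈ S j, m ≤ k v) ∧
    ((S j).filter fun v => m + 1 ≤ k v).card < Λ ^ 2 ∧ ¬ ∀ v ∈ S j, m + 1 ≤ k v with hP
  have hterm : ∀ m, (if ∃ v ∈ S j, m ≤ k v then √(ridge Λ R0 (S j) k (m + 1) / Λ) else 0)
      ≤ 1 / √Λ + (if m + 1 ≤ n then ((1 : ℝ) / 2) ^ (n - (m + 1)) else 0)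
        + (if P m then 1 else 0) := by
    intro m
    have hs : 0 ≤ 1 / √(Λ : ℝ) := by positivity
    have hw : 0 ≤ (if m + 1 ≤ n then ((1 : ℝ) / 2) ^ (n - (m + 1)) else 0) := by
      split_ifs <;> positivity
    have hp : 0 ≤ (if P m then (1 : ℝ) else 0) := by split_ifs <;> norm_num
    by_cases hact : ∃ v ∈ S j, m ≤ k v
    swap
    · rw [if_neg hact]; positivity
    rw [if_pos hact]
    by_cases h1 : Λ ^ 2 ≤ ((S j).filter fun v => m + 1 ≤ k v).card
    · have e : ridge Λ R0 (S j) k (m + 1) = 1 := by unfold ridge; rw [if_pos h1]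
      rw [e, Real.sqrt_div zero_le_one, Real.sqrt_one]
      linarith
    by_cases h2 : ∀ v ∈ S j, m + 1 ≤ k v
    · have e : ridge Λ R0 (S j) k (m + 1)
          = max 1 ((Λ : ℝ) / (R0 : ℝ) ^ (kmin (S j) k - (m + 1))) := by
        unfold ridge; rw [if_neg h1, if_pos h2]
      have hmn : m + 1 ≤ n := by
        obtain ⟨v, hv, -⟩ := hact
        exact le_kmin ⟨v, hv⟩ h2
      rw [if_pos hmn, e, ← hn]
      have hR0 : (4 : ℝ) ≤ R0 := by exact_mod_cast hR
      have h3 : max 1 ((Λ : ℝ) / (R0 : ℝ) ^ (n - (m + 1))) / Λ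
          ≤ (1 / √Λ + ((1 : ℝ) / 2) ^ (n - (m + 1))) ^ 2 := by
        have a1 : (1 / √(Λ : ℝ)) ^ 2 = 1 / Λ := by
          rw [div_pow, one_pow, Real.sq_sqrt hΛ0.le]
        have a2 : (((1 : ℝ) / 2) ^ (n - (m + 1))) ^ 2 = 1 / 4 ^ (n - (m + 1)) := by
          rw [← pow_mul, mul_comm, pow_mul, one_div ((4 : ℝ) ^ (n - (m + 1))), ← inv_pow]
          norm_num
        have a3 : (1 : ℝ) / (R0 : ℝ) ^ (n - (m + 1)) ≤ 1 / 4 ^ (n - (m + 1)) := by
          apply one_div_le_one_div_of_le (by positivity)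
          exact pow_le_pow_left₀ (by norm_num) hR0 _
        have a4 : 0 ≤ 2 * (1 / √(Λ : ℝ)) * ((1 : ℝ) / 2) ^ (n - (m + 1)) := by positivity
        rw [div_le_iff₀ hΛ0]
        apply max_le
        · rw [← div_le_iff₀ hΛ0, add_sq, a1, a2]
          have : (0 : ℝ) ≤ 1 / 4 ^ (n - (m + 1)) := by positivity
          linarith
        · rw [← div_le_iff₀ hΛ0, add_sq, a1, a2]
          have : (0 : ℝ) ≤ 1 / Λ := by positivity
          have e5 : (Λ : ℝ) / (R0 : ℝ) ^ (n - (m + 1)) / Λ = 1 / (R0 : ℝ) ^ (n - (m + 1)) := by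
            field_simp
          rw [e5]
          linarith
      have h4 := Real.sqrt_le_sqrt h3
      rw [Real.sqrt_sq (by positivity)] at h4
      linarith
    · have e : ridge Λ R0 (S j) k (m + 1) = Λ := by
        unfold ridge; rw [if_neg h1, if_neg h2]
      have hPm : P m := ⟨hact, not_le.1 h1, h2⟩
      rw [e, div_self hΛ0.ne', Real.sqrt_one, if_pos hPm]
      linarith
  refine (Finset.sum_le_sum fun m _ => hterm m).trans ?_
  rw [Finset.sum_add_distrib, Finset.sum_add_distrib]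
  have b1 : ∑ _m ∈ range N, 1 / √(Λ : ℝ) = N / √Λ := by
    rw [Finset.sum_const, card_range, nsmul_eq_mul, mul_one_div]
  have b2 := geo n N
  have b3 : ∑ m ∈ range N, (if P m then (1 : ℝ) else 0) ≤ 3 := by
    rw [← Finset.sum_filter, Finset.sum_const, nsmul_eq_mul, mul_one]
    have : ((range N).filter P).card ≤ 3 := by
      rcases ((range N).filter P).eq_empty_or_nonempty with h | h
      · rw [h]; simp
      · obtain ⟨m0, hm0, hmin⟩ := Finset.exists_min_image _ (fun m => m) h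
        have hP0 : P m0 := (mem_filter.1 hm0).2
        obtain ⟨⟨v0, hv0, hk0⟩, h01, h02⟩ := hP0
        have hcard := card_exq_le P3 j m0 h01
        have hex : ∃ u ∈ S j, k u = m0 := by
          rcases Nat.eq_zero_or_pos m0 with hz | hz
          · subst hz
            push Not at h02
            obtain ⟨u, hu, hku⟩ := h02
            exact ⟨u, hu, by omega⟩
          · obtain ⟨m1, rfl⟩ : ∃ m1, m0 = m1 + 1 := ⟨m0 - 1, by omega⟩
            have hm1N : m1 ∈ range N := by
              have := (mem_filter.1 hm0).1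
              rw [mem_range] at this ⊢
              omega
            have hnP : ¬ P m1 := by
              intro hp
              have := hmin m1 (mem_filter.2 ⟨hm1N, hp⟩)
              omega
            have hact : ∃ v ∈ S j, m1 ≤ k v := ⟨v0, hv0, by omega⟩
            by_cases g1 : ((S j).filter fun v => m1 + 1 ≤ k v).card < Λ ^ 2
            · have g2 : ∀ v ∈ S j, m1 + 1 ≤ k v := by
                by_contra g3
                exact hnP ⟨hact, g1, g3⟩
              push Not at h02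
              obtain ⟨u, hu, hku⟩ := h02
              have := g2 u hu
              exact ⟨u, hu, by omega⟩
            · by_contra hno
              push Not at hno
              apply g1
              refine lt_of_le_of_lt (Finset.card_le_card fun v hv => ?_) h01
              rw [mem_filter] at hv ⊢
              have := hno v hv.1
              exact ⟨hv.1, by omega⟩
        obtain ⟨u, hu, hku⟩ := hex
        have hsub : (range N).filter P ⊆ Finset.Icc m0 (m0 + 2) := by
          intro m hm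
          rw [Finset.mem_Icc]
          refine ⟨hmin m hm, ?_⟩
          obtain ⟨⟨w, hw, hkw⟩, -⟩ := (mem_filter.1 hm).2
          exact hkw.trans (P2 m0 j u w hcard hu hku hw)
        refine (Finset.card_le_card hsub).trans ?_
        rw [Nat.card_Icc]
        omega
    exact_mod_cast this
  linarith

end Pool.Agent.Helper50.BO
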