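import Pool.Agent.Helper66.BO.St2

namespace Pool.Agent.Helper50.BO

open Matrix Finset Pool.Agent.Helper66.BO Pool.Agent.Helper60.BO

variable {V : Type}

theorem yS_nonneg (R0 : ℕ) (T : Finset V) (k : V → ℕ) (i : ℕ) : 0 ≤ yS R0 T k i :=
  Finset.sum_nonneg fun _ _ => by positivity

theorem card_le_yS {R0 : ℕ} (hR : 1 ≤ R0) (T : Finset V) (k : V → ℕ) (i : ℕ) :
    ((T.filter fun v => i ≤ k v).card : ℝ) ≤ yS R0 T k i := by
  unfold yS
  have h1 : (1 : ℝ) ≤ R0 := by exact_mod_cast hR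
  calc ((T.filter fun v => i ≤ k v).card : ℝ) = ∑ _v ∈ T.filter fun v => i ≤ k v, (1 : ℝ) := by simp
    _ ≤ _ := Finset.sum_le_sum fun v _ => one_le_pow₀ h1

theorem yS_succ {R0 : ℕ} (T : Finset V) (k : V → ℕ) (i : ℕ) :
    R0 * yS R0 T k (i + 1) ≤ yS R0 T k i := by
  unfold yS
  rw [Finset.mul_sum]
  have h1 : ∑ v ∈ T.filter fun v => i + 1 ≤ k v, (R0 : ℝ) * (R0 : ℝ) ^ (k v - (i + 1))
      = ∑ v ∈ T.filter fun v => i + 1 ≤ k v, (R0 : ℝ) ^ (k v - i) := by
    refine Finset.sum_congr rfl fun v hv => ?_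
    have hk : i + 1 ≤ k v := (mem_filter.1 hv).2
    rw [← pow_succ', show k v - (i + 1) + 1 = k v - i by omega]
  rw [h1]
  refine Finset.sum_le_sum_of_subset_of_nonneg (fun v hv => ?_) fun _ _ _ => by positivity
  rw [mem_filter] at hv ⊢
  exact ⟨hv.1, by omega⟩

theorem yS_anti {R0 : ℕ} (hR : 1 ≤ R0) (T : Finset V) (k : V → ℕ) {i j : ℕ} (hij : i ≤ j) :
    yS R0 T k j ≤ yS R0 T k i := by
  induction j, hij using Nat.le_induction with
  | base => exact le_rfl
  | succ j _ ih =>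
    refine le_trans ?_ ih
    have h1 : (1 : ℝ) ≤ R0 := by exact_mod_cast hR
    have h2 := yS_nonneg R0 T k (j + 1)
    exact (le_mul_of_one_le_left h2 h1).trans (yS_succ T k j)

theorem accP (T : Finset V) {R0 : ℕ} {k : V → ℕ} (hR : 1 ≤ R0) {sm β0 : ℝ} (hsm : sm ≤ R0)
    (hβ : 0 < β0) (N : ℕ) :
    ∑ m ∈ range N, (if ∃ v ∈ T, m ≤ k v then (if sm ≤ yS R0 T k (m + 1) then 1 / β0 else 1) else 0)
      ≤ N / β0 + 2 := by
  classical
  have hR0 : (0 : ℝ) < R0 := by
    have : (1 : ℝ) ≤ R0 := by exact_mod_cast hR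
    linarith
  set P : ℕ → Prop := fun m => (∃ v ∈ T, m ≤ k v) ∧ yS R0 T k (m + 1) < sm with hP
  have hterm : ∀ m, (if ∃ v ∈ T, m ≤ k v then (if sm ≤ yS R0 T k (m + 1) then 1 / β0 else 1)
      else 0) ≤ 1 / β0 + (if P m then 1 else 0) := by
    intro m
    have hs : 0 ≤ 1 / β0 := by positivity
    have hp : 0 ≤ (if P m then (1 : ℝ) else 0) := by split_ifs <;> norm_num
    by_cases hact : ∃ v ∈ T, m ≤ k v
    swap
    · rw [if_neg hact]; linarith
    rw [if_pos hact]
    by_cases h1 : sm ≤ yS R0 T k (m + 1)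
    · rw [if_pos h1]; linarith
    · have hPm : P m := ⟨hact, not_le.1 h1⟩
      rw [if_neg h1, if_pos hPm]; linarith
  refine (Finset.sum_le_sum fun m _ => hterm m).trans ?_
  rw [Finset.sum_add_distrib]
  have b1 : ∑ _m ∈ range N, 1 / β0 = N / β0 := by
    rw [Finset.sum_const, card_range, nsmul_eq_mul, mul_one_div]
  have b3 : ∑ m ∈ range N, (if P m then (1 : ℝ) else 0) ≤ 2 := by
    rw [← Finset.sum_filter, Finset.sum_const, nsmul_eq_mul, mul_one]
    have : ((range N).filter P).card ≤ 2 := by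
      rcases ((range N).filter P).eq_empty_or_nonempty with h | h
      · rw [h]; simp
      · obtain ⟨m0, hm0, hmin⟩ := Finset.exists_min_image _ (fun m => m) h
        have hP0 : P m0 := (mem_filter.1 hm0).2
        obtain ⟨-, h01⟩ := hP0
        have hsub : (range N).filter P ⊆ Finset.Icc m0 (m0 + 1) := by
          intro m hm
          rw [Finset.mem_Icc]
          refine ⟨hmin m hm, ?_⟩
          by_contra hcon
          push Not at hcon
          obtain ⟨w, hw, hkw⟩ := (mem_filter.1 hm).2.1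
          have c1 : (1 : ℝ) ≤ ((T.filter fun v => m ≤ k v).card : ℝ) := by
            have : 1 ≤ (T.filter fun v => m ≤ k v).card :=
              Finset.card_pos.2 ⟨w, mem_filter.2 ⟨hw, hkw⟩⟩
            exact_mod_cast this
          have c2 := card_le_yS hR T k m
          have c3 : yS R0 T k m ≤ yS R0 T k (m0 + 2) := yS_anti hR T k (by omega)
          have c4 := yS_succ (R0 := R0) T k (m0 + 1)
          have c5 : (R0 : ℝ) * 1 ≤ R0 * yS R0 T k (m0 + 2) :=
            mul_le_mul_of_nonneg_left (by linarith) hR0.le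
          have c6 : yS R0 T k (m0 + 1 + 1) = yS R0 T k (m0 + 2) := rfl
          rw [c6] at c4
          linarith
        refine (Finset.card_le_card hsub).trans ?_
        rw [Nat.card_Icc]
        omega
    exact_mod_cast this
  linarith

end Pool.Agent.Helper50.BO
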