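import Mathlib

namespace Pool.Agent.Helper50.BO

open Finset

/-- one step: a kernel vector makes one more coordinate integral -/
theorem basic_step {V J : Type} [Fintype V] [Fintype J] [DecidableEq V] (c : J → V → ℝ)
    (y : V → ℝ) (hy : ∀ i, |y i| ≤ 1) (h0 : ∀ j, ∑ i, c j i * y i = 0)
    (hF : Fintype.card J < (univ.filter fun i => |y i| < 1).card) :
    ∃ y' : V → ℝ, (∀ i, |y' i| ≤ 1) ∧ (∀ j, ∑ i, c j i * y' i = 0) ∧
      (univ.filter fun i => |y' i| < 1).card < (univ.filter fun i => |y i| < 1).card := by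
  classical
  set F := univ.filter fun i => |y i| < 1 with hFd
  let f : (F → ℝ) →ₗ[ℝ] (J → ℝ) :=
    { toFun := fun w j => ∑ i : F, c j i * w i
      map_add' := by
        intro u v; ext j
        simp only [Pi.add_apply, mul_add, Finset.sum_add_distrib]
      map_smul' := by
        intro r v; ext j
        simp only [Pi.smul_apply, smul_eq_mul, RingHom.id_apply, Finset.mul_sum]
        exact Finset.sum_congr rfl fun i _ => by ring }
  have hker : LinearMap.ker f ≠ ⊥ := by
    apply LinearMap.ker_ne_bot_of_finrank_lt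
    rw [Module.finrank_fintype_fun_eq_card, Module.finrank_fintype_fun_eq_card, Fintype.card_coe]
    exact hF
  obtain ⟨w0, hw0, hne⟩ := Submodule.exists_mem_ne_zero_of_ne_bot hker
  set w : V → ℝ := fun i => if h : i ∈ F then w0 ⟨i, h⟩ else 0 with hw
  have hwF : ∀ i, i ∉ F → w i = 0 := fun i hi => by simp only [hw, hi, dif_neg, not_false_eq_true]
  have hsum : ∀ j, ∑ i, c j i * w i = 0 := by
    intro j
    have h1 : ∑ i : F, c j i * w0 i = 0 := congrFun (LinearMap.mem_ker.1 hw0) j
    have h2 : ∑ i, c j i * w i = ∑ i ∈ F, c j i * w i := by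
      symm
      apply Finset.sum_subset (Finset.subset_univ _)
      intro i _ hi
      rw [hwF i hi, mul_zero]
    rw [h2, ← Finset.sum_coe_sort F, ← h1]
    refine Finset.sum_congr rfl fun i _ => ?_
    simp only [hw, i.2, dif_pos]
  obtain ⟨i0, hi0⟩ : ∃ i, w i ≠ 0 := by
    obtain ⟨i, hi⟩ := Function.ne_iff.1 hne
    refine ⟨i, ?_⟩
    simp only [hw, i.2, dif_pos]
    exact hi
  set G := univ.filter fun i => w i ≠ 0 with hG
  have hGne : G.Nonempty := ⟨i0, mem_filter.2 ⟨mem_univ _, hi0⟩⟩
  set σ : V → ℝ := fun i => if 0 < w i then 1 else -1 with hσ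
  have hσw : ∀ i, σ i * w i = |w i| := by
    intro i
    simp only [hσ]
    split_ifs with h
    · rw [one_mul, abs_of_pos h]
    · rw [abs_of_nonpos (not_lt.1 h)]; ring
  have hσ2 : ∀ i, σ i * σ i = 1 := by
    intro i; simp only [hσ]; split_ifs <;> norm_num
  have hσa : ∀ i, |σ i| = 1 := by
    intro i; simp only [hσ]; split_ifs <;> norm_num
  obtain ⟨i1, hi1, hmin⟩ := Finset.exists_min_image G (fun i => (1 - σ i * y i) / |w i|) hGne
  set s := (1 - σ i1 * y i1) / |w i1| with hs
  have hle : ∀ i, |σ i * y i| ≤ 1 := fun i => by rw [abs_mul, hσa, one_mul]; exact hy i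
  have hs0 : 0 ≤ s := by
    apply div_nonneg _ (abs_nonneg _)
    have := (abs_le.1 (hle i1)).2
    linarith
  refine ⟨fun i => y i + s * w i, fun i => ?_, fun j => ?_, ?_⟩
  · by_cases hi : w i = 0
    · simp only [hi, mul_zero, add_zero]; exact hy i
    · have hiG : i ∈ G := mem_filter.2 ⟨mem_univ _, hi⟩
      have h1 := hmin i hiG
      have hpos : 0 < |w i| := abs_pos.2 hi
      have h2 : s * |w i| ≤ 1 - σ i * y i := by
        rw [← le_div_iff₀ hpos]; exact h1
      have h3 : |y i + s * w i| = |σ i * y i + s * (|w i|)| := by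
        rw [← hσw i, show σ i * y i + s * (σ i * w i) = σ i * (y i + s * w i) by ring, abs_mul,
          hσa, one_mul]
      rw [h3, abs_le]
      have h4 := abs_le.1 (hle i)
      have h5 : 0 ≤ s * |w i| := by positivity
      constructor <;> linarith
  · simp only [mul_add, Finset.sum_add_distrib]
    rw [h0 j, zero_add]
    have : ∑ i, c j i * (s * w i) = s * ∑ i, c j i * w i := by
      rw [Finset.mul_sum]; exact Finset.sum_congr rfl fun i _ => by ring
    rw [this, hsum j, mul_zero]
  · apply Finset.card_lt_card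
    rw [Finset.ssubset_iff_of_subset]
    · refine ⟨i1, ?_, ?_⟩
      · by_contra h
        exact (mem_filter.1 hi1).2 (hwF i1 h)
      · rw [mem_filter, not_and]
        intro _
        have hpos : 0 < |w i1| := abs_pos.2 (mem_filter.1 hi1).2
        have h3 : |y i1 + s * w i1| = |σ i1 * y i1 + s * (|w i1|)| := by
          rw [← hσw i1, show σ i1 * y i1 + s * (σ i1 * w i1) = σ i1 * (y i1 + s * w i1) by ring,
            abs_mul, hσa, one_mul]
        rw [h3, hs, div_mul_cancel₀ _ hpos.ne']
        have : σ i1 * y i1 + (1 - σ i1 * y i1) = 1 := by ring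
        rw [this, abs_one]
        exact lt_irrefl _
    · intro i hi
      by_contra h
      have h1 := (mem_filter.1 hi).2
      simp only [hwF i h, mul_zero, add_zero] at h1
      exact h (mem_filter.2 ⟨mem_univ _, h1⟩)

/-- basic solutions -/
theorem basic {V J : Type} [Fintype V] [Fintype J] [DecidableEq V] (c : J → V → ℝ) :
    ∃ y : V → ℝ, (∀ i, |y i| ≤ 1) ∧ (∀ j, ∑ i, c j i * y i = 0) ∧
      (univ.filter fun i => |y i| < 1).card ≤ Fintype.card J := by
  have key : ∀ k : ℕ, ∀ y : V → ℝ, (∀ i, |y i| ≤ 1) → (∀ j, ∑ i, c j i * y i = 0) →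
      (univ.filter fun i => |y i| < 1).card ≤ k →
      ∃ y : V → ℝ, (∀ i, |y i| ≤ 1) ∧ (∀ j, ∑ i, c j i * y i = 0) ∧
      (univ.filter fun i => |y i| < 1).card ≤ Fintype.card J := by
    intro k
    induction k with
    | zero => intro y h1 h2 h3; exact ⟨y, h1, h2, by omega⟩
    | succ k ih =>
      intro y h1 h2 h3
      by_cases h : (univ.filter fun i => |y i| < 1).card ≤ Fintype.card J
      · exact ⟨y, h1, h2, h⟩
      · obtain ⟨y', a1, a2, a3⟩ := basic_step c y h1 h2 (not_le.1 h)
        exact ih y' a1 a2 (by omega)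
  exact key _ (fun _ => 0) (fun i => by simp) (fun j => by simp) le_rfl

end Pool.Agent.Helper50.BO
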