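import Pool.Agent.Helper50.BO.Rounds

namespace Pool.Agent.Helper50.BO

open Matrix Finset

theorem LLs_nonneg (x : ℝ) : 0 ≤ x * √x := by
  rcases le_total 0 x with h | h
  · positivity
  · rw [Real.sqrt_eq_zero_of_nonpos h, mul_zero]

theorem mul_sqrt_mono {x y : ℝ} (h : x ≤ y) : x * √x ≤ y * √y := by
  rcases le_total 0 x with h0 | h0
  · exact mul_le_mul h (Real.sqrt_le_sqrt h) (Real.sqrt_nonneg _) (h0.trans h)
  · rw [Real.sqrt_eq_zero_of_nonpos h0, mul_zero]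
    exact LLs_nonneg y

theorem RT_mono {C C' : ℝ} (h : C ≤ C') (hC : RT C) : RT C' := by
  intro V J _ _ c z B N h1 h2 h3 h4 h5
  obtain ⟨y, y1, y2⟩ := hC V J c z B N h1 h2 h3 h4 h5
  exact ⟨y, y1, fun j => (y2 j).trans (mul_le_mul_of_nonneg_right h (LLs_nonneg _))⟩

/-- choice of the large constant -/
theorem exists_A {C : ℝ} (hC : 0 ≤ C) : ∃ A : ℕ, 32 ≤ A ∧
    48 * C * ((35 * (1 + Real.log A)) * √(35 * (1 + Real.log A))) ≤ √(A : ℝ) := by
  set y : ℕ := ⌈3763200 * (C + 1)⌉₊ with hy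
  have hy1 : 3763200 * (C + 1) ≤ (y : ℝ) := Nat.le_ceil _
  have hy2 : (1 : ℝ) ≤ y := by nlinarith
  have hy0 : (0 : ℝ) < y := by linarith
  refine ⟨y ^ 8, ?_, ?_⟩
  · have h2 : 2 ≤ y := by
      have : (2 : ℝ) ≤ y := by nlinarith
      exact_mod_cast this
    calc 32 ≤ 2 ^ 8 := by norm_num
      _ ≤ y ^ 8 := Nat.pow_le_pow_left h2 8
  · push_cast
    rw [Real.log_pow]
    have hl : Real.log y ≤ y - 1 := Real.log_le_sub_one_of_pos hy0
    have hl0 : 0 ≤ Real.log y := Real.log_nonneg hy2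
    set a : ℝ := 35 * (1 + ((8 : ℕ) : ℝ) * Real.log y) with ha
    have ha1 : a ≤ 280 * y := by rw [ha]; push_cast; linarith
    have ha0 : 1 ≤ a := by rw [ha]; push_cast; linarith
    have h1 : √a ≤ a := by
      rw [Real.sqrt_le_left (by linarith)]
      nlinarith
    have h2 : a * √a ≤ (280 * y) ^ 2 := by
      calc a * √a ≤ a * a := mul_le_mul_of_nonneg_left h1 (by linarith)
        _ = a ^ 2 := by ring
        _ ≤ _ := pow_le_pow_left₀ (by linarith) ha1 2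
    have h3 : √((y : ℝ) ^ 8) = (y : ℝ) ^ 4 := by
      rw [show (y : ℝ) ^ 8 = ((y : ℝ) ^ 4) ^ 2 by ring]
      exact Real.sqrt_sq (by positivity)
    rw [h3]
    calc 48 * C * (a * √a) ≤ 48 * C * (280 * y) ^ 2 :=
          mul_le_mul_of_nonneg_left h2 (by positivity)
      _ = (3763200 * C) * y ^ 2 := by ring
      _ ≤ y ^ 2 * y ^ 2 := by
          apply mul_le_mul_of_nonneg_right _ (by positivity)
          nlinarith
      _ = y ^ 4 := by ring

/-- bound for the logarithm -/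
theorem LL_bound {A t l : ℕ} (hA : 32 ≤ A) (ht : 1 ≤ t) (hl : 1 ≤ l) :
    LL (16 * ((160 * t * (16 * (2 * l + t + 3) * t + (A * (t + l) ^ 6) ^ 2) : ℕ) : ℝ) ^ 2
      * ((16 * (2 * l + t + 3) * t : ℕ) : ℝ) * ((A * (t + l) ^ 6 : ℕ) : ℝ)) (2 ^ (2 * l + t + 3))
      ≤ 35 * (1 + Real.log A) * (1 + Real.log ((t + l : ℕ) : ℝ)) := by
  set x : ℝ := ((t + l : ℕ) : ℝ) with hx
  have hA1 : (32 : ℝ) ≤ A := by exact_mod_cast hA
  have ht1 : (1 : ℝ) ≤ t := by exact_mod_cast ht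
  have hl1 : (1 : ℝ) ≤ l := by exact_mod_cast hl
  have hxe : x = t + l := by rw [hx]; push_cast; ring
  have hx2 : 2 ≤ x := by rw [hxe]; linarith
  have htx : (t : ℝ) ≤ x := by rw [hxe]; linarith
  have hq : ((2 * l + t + 3 : ℕ) : ℝ) ≤ 5 * x := by rw [hxe]; push_cast; linarith
  have hq0 : (6 : ℝ) ≤ ((2 * l + t + 3 : ℕ) : ℝ) := by push_cast; linarith
  have hLh : ((16 * (2 * l + t + 3) * t : ℕ) : ℝ) ≤ 80 * x ^ 2 := by
    have e : ((16 * (2 * l + t + 3) * t : ℕ) : ℝ) = 16 * ((2 * l + t + 3 : ℕ) : ℝ) * t := by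
      push_cast; ring
    rw [e]
    calc 16 * ((2 * l + t + 3 : ℕ) : ℝ) * t ≤ 16 * (5 * x) * x := by
          apply mul_le_mul _ htx (by linarith) (by positivity)
          linarith
      _ = _ := by ring
  have hLh1 : (1 : ℝ) ≤ ((16 * (2 * l + t + 3) * t : ℕ) : ℝ) := by
    have : 1 ≤ 16 * (2 * l + t + 3) * t := by
      have : 1 * 1 ≤ 16 * (2 * l + t + 3) * t := Nat.mul_le_mul (by omega) ht
      simpa using this
    exact_mod_cast this
  have hΛe : ((A * (t + l) ^ 6 : ℕ) : ℝ) = A * x ^ 6 := by rw [hx]; push_cast; ring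
  have hx1 : 1 ≤ x := by linarith
  have hΛ1 : 1 ≤ (A : ℝ) * x ^ 6 := by
    have : 1 ≤ x ^ 6 := one_le_pow₀ hx1
    nlinarith
  have hR0 : ((160 * t * (16 * (2 * l + t + 3) * t + (A * (t + l) ^ 6) ^ 2) : ℕ) : ℝ)
      ≤ 320 * A ^ 2 * x ^ 13 := by
    have e : ((160 * t * (16 * (2 * l + t + 3) * t + (A * (t + l) ^ 6) ^ 2) : ℕ) : ℝ)
        = 160 * t * (((16 * (2 * l + t + 3) * t : ℕ) : ℝ) + (((A * (t + l) ^ 6 : ℕ) : ℝ)) ^ 2) := by
      push_cast; ring
    rw [e, hΛe]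
    have h1 : 80 * x ^ 2 ≤ (A : ℝ) ^ 2 * x ^ 12 := by
      have h2 : (80 : ℝ) ≤ A ^ 2 := by nlinarith
      have h3 : x ^ 2 ≤ x ^ 12 := pow_le_pow_right₀ hx1 (by norm_num)
      exact mul_le_mul h2 h3 (by positivity) (by positivity)
    have h4 : ((16 * (2 * l + t + 3) * t : ℕ) : ℝ) + ((A : ℝ) * x ^ 6) ^ 2
        ≤ 2 * (A ^ 2 * x ^ 12) := by
      have : ((A : ℝ) * x ^ 6) ^ 2 = A ^ 2 * x ^ 12 := by ring
      rw [this]; linarith
    calc 160 * (t : ℝ) * (((16 * (2 * l + t + 3) * t : ℕ) : ℝ) + ((A : ℝ) * x ^ 6) ^ 2)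
        ≤ 160 * x * (2 * (A ^ 2 * x ^ 12)) := by
          apply mul_le_mul _ h4 (by positivity) (by positivity)
          linarith
      _ = _ := by ring
  have hR01 : (1 : ℝ) ≤ ((160 * t * (16 * (2 * l + t + 3) * t + (A * (t + l) ^ 6) ^ 2) : ℕ) : ℝ) := by
    have : 1 ≤ 160 * t * (16 * (2 * l + t + 3) * t + (A * (t + l) ^ 6) ^ 2) := by
      have h1 : 1 * 1 ≤ (160 * t) * (16 * (2 * l + t + 3) * t + (A * (t + l) ^ 6) ^ 2) := by
        apply Nat.mul_le_mul (by omega)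
        have : 1 ≤ 16 * (2 * l + t + 3) * t := by exact_mod_cast hLh1
        omega
      simpa using h1
    exact_mod_cast this
  set R := ((160 * t * (16 * (2 * l + t + 3) * t + (A * (t + l) ^ 6) ^ 2) : ℕ) : ℝ) with hR
  set Lh := ((16 * (2 * l + t + 3) * t : ℕ) : ℝ) with hLhd
  set q := ((2 * l + t + 3 : ℕ) : ℝ) with hqd
  have hlogx : 0 ≤ Real.log x := Real.log_nonneg hx1
  have hlogA : 0 ≤ Real.log A := Real.log_nonneg (by linarith)
  have hB : 16 * R ^ 2 * Lh * ((A * (t + l) ^ 6 : ℕ) : ℝ) ≤ A ^ 11 * x ^ 34 := by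
    rw [hΛe]
    calc 16 * R ^ 2 * Lh * (A * x ^ 6) ≤ 16 * (320 * A ^ 2 * x ^ 13) ^ 2 * (80 * x ^ 2) * (A * x ^ 6) := by
          apply mul_le_mul_of_nonneg_right _ (by positivity)
          apply mul_le_mul _ hLh (by positivity) (by positivity)
          apply mul_le_mul_of_nonneg_left _ (by norm_num)
          exact pow_le_pow_left₀ (by positivity) hR0 2
      _ = 131072000 * (A ^ 5 * x ^ 34) := by ring
      _ ≤ A ^ 6 * (A ^ 5 * x ^ 34) := by
          apply mul_le_mul_of_nonneg_right _ (by positivity)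
          calc (131072000 : ℝ) ≤ 32 ^ 6 := by norm_num
            _ ≤ (A : ℝ) ^ 6 := pow_le_pow_left₀ (by norm_num) hA1 6
      _ = _ := by ring
  have hB0 : 0 < 16 * R ^ 2 * Lh * ((A * (t + l) ^ 6 : ℕ) : ℝ) := by
    rw [hΛe]; positivity
  have h1 : Real.log (16 * R ^ 2 * Lh * ((A * (t + l) ^ 6 : ℕ) : ℝ))
      ≤ 11 * Real.log A + 34 * Real.log x := by
    refine (Real.log_le_log hB0 hB).trans (le_of_eq ?_)
    rw [Real.log_mul (by positivity) (by positivity), Real.log_pow, Real.log_pow]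
    push_cast; ring
  have h2 : Real.log (Real.log (2 ^ (2 * l + t + 3))) ≤ 2 + Real.log x := by
    rw [Real.log_pow, ← hqd]
    have h3 : q * Real.log 2 ≤ 5 * x := by
      have h4 := Real.log_two_lt_d9
      have h5 := Real.log_two_gt_d9
      nlinarith
    have h6 : 0 < q * Real.log 2 := by
      have h5 := Real.log_two_gt_d9
      apply mul_pos (by linarith) (by linarith)
    refine (Real.log_le_log h6 h3).trans ?_
    rw [Real.log_mul (by norm_num) (by linarith)]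
    have h7 : Real.log 5 ≤ 2 := by
      rw [Real.log_le_iff_le_exp (by norm_num)]
      have h8 := Real.exp_one_gt_d9
      have h9 : Real.exp 2 = Real.exp 1 * Real.exp 1 := by rw [← Real.exp_add]; norm_num
      rw [h9]; nlinarith
    linarith
  unfold LL
  nlinarith [mul_nonneg hlogA hlogx]

end Pool.Agent.Helper50.BO
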