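import Pool.Agent.Helper50.BO.Fin

namespace Pool.Agent.Helper50.BO

open Matrix Finset

/-- the logarithm in the final theorem -/
noncomputable def MM (t n : ℝ) : ℝ := 1 + Real.log t + Real.log (1 + Real.log (n + 1))

theorem MM_ge {t n : ℝ} (ht : 1 ≤ t) (hn : 0 ≤ n) : 1 ≤ MM t n := by
  unfold MM
  have h1 := Real.log_nonneg ht
  have h2 : 0 ≤ Real.log (n + 1) := Real.log_nonneg (by linarith)
  have h3 : 0 ≤ Real.log (1 + Real.log (n + 1)) := Real.log_nonneg (by linarith)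
  linarith

theorem logx_le {t n : ℕ} (ht : 1 ≤ t) :
    1 + Real.log ((t + (Nat.log 2 (n + 1) + 1) : ℕ) : ℝ) ≤ 2 * MM t n := by
  have ht1 : (1 : ℝ) ≤ t := by exact_mod_cast ht
  have hn0 : (0 : ℝ) ≤ n := Nat.cast_nonneg n
  set a : ℝ := Real.log ((n : ℝ) + 1) with ha
  have ha0 : 0 ≤ a := Real.log_nonneg (by linarith)
  have h1 : ((Nat.log 2 (n + 1) : ℕ) : ℝ) ≤ 3 / 2 * a := by
    have h2 : 2 ^ Nat.log 2 (n + 1) ≤ n + 1 := Nat.pow_log_le_self 2 (by omega)
    have h3 : ((2 : ℝ)) ^ Nat.log 2 (n + 1) ≤ n + 1 := by exact_mod_cast h2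
    have h4 := Real.log_le_log (by positivity) h3
    rw [Real.log_pow] at h4
    have h5 := Real.log_two_gt_d9
    have h6 : (0 : ℝ) ≤ ((Nat.log 2 (n + 1) : ℕ) : ℝ) := Nat.cast_nonneg _
    nlinarith
  have h2 : ((t + (Nat.log 2 (n + 1) + 1) : ℕ) : ℝ) ≤ 5 / 2 * (t * (1 + a)) := by
    push_cast
    nlinarith [mul_nonneg (by linarith : (0 : ℝ) ≤ t - 1) ha0]
  have h3 : (0 : ℝ) < ((t + (Nat.log 2 (n + 1) + 1) : ℕ) : ℝ) := by
    push_cast; positivity
  have h4 := Real.log_le_log h3 h2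
  rw [Real.log_mul (by norm_num) (by positivity), Real.log_mul (by positivity) (by positivity)] at h4
  have h5 : Real.log (5 / 2) ≤ 1 := by
    rw [Real.log_le_iff_le_exp (by norm_num)]
    have := Real.exp_one_gt_d9
    linarith
  have h6 := Real.log_nonneg ht1
  have h7 : 0 ≤ Real.log (1 + a) := Real.log_nonneg (by linarith)
  unfold MM
  rw [← ha]
  linarith

/-- rows are few -/
theorem card_rows_le {V J : Type} [Fintype V] [Fintype J] [DecidableEq V] (S : J → Finset V)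
    (t : ℕ) (ht : ∀ v, (Finset.univ.filter fun j => v ∈ S j).card ≤ t)
    (hne : ∀ j, (S j).Nonempty) : Fintype.card J ≤ t * Fintype.card V := by
  classical
  have h1 : ∑ j : J, (S j).card = ∑ v : V, (Finset.univ.filter fun j => v ∈ S j).card := by
    have a1 : ∀ j, (S j).card = ∑ v : V, if v ∈ S j then 1 else 0 := by
      intro j
      rw [← Finset.sum_filter, Finset.sum_const, smul_eq_mul, mul_one]
      congr 1
      ext v; simp
    have a2 : ∀ v, (Finset.univ.filter fun j => v ∈ S j).card = ∑ j : J, if v ∈ S j then 1 else 0 := by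
      intro v
      rw [← Finset.sum_filter, Finset.sum_const, smul_eq_mul, mul_one]
    rw [Finset.sum_congr rfl fun j _ => a1 j, Finset.sum_congr rfl fun v _ => a2 v,
      Finset.sum_comm]
  calc Fintype.card J = ∑ _j : J, 1 := by simp
    _ ≤ ∑ j : J, (S j).card := Finset.sum_le_sum fun j _ => Finset.card_pos.2 (hne j)
    _ = ∑ v : V, (Finset.univ.filter fun j => v ∈ S j).card := h1
    _ ≤ ∑ _v : V, t := Finset.sum_le_sum fun v _ => ht v
    _ = t * Fintype.card V := by simp [mul_comm]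

theorem fin_aux (hS3 : S3) (hR1 : R1) {C : ℝ} (hC : 0 ≤ C) (hRT : RT C) :
    ∃ C' : ℝ, 0 ≤ C' ∧ ∀ (V J : Type) [Fintype V] [Fintype J] [DecidableEq V] [DecidableEq J]
      [Nonempty V] [Nonempty J] (S : J → Finset V) (t : ℕ), 1 ≤ t →
      (∀ v, (Finset.univ.filter fun j => v ∈ S j).card ≤ t) → (∀ j, (S j).Nonempty) →
      ∃ χ : V → ℝ, (∀ v, |χ v| = 1) ∧ ∀ j, |∑ v ∈ S j, χ v|
        ≤ C' * (√t * MM t (Fintype.card V) * √(MM t (Fintype.card V))) := by
  obtain ⟨A, hA, hA2⟩ := exists_A hC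
  set a : ℝ := 35 * (1 + Real.log A) with ha
  have hA1 : (32 : ℝ) ≤ A := by exact_mod_cast hA
  have hlA : 0 ≤ Real.log A := Real.log_nonneg (by linarith)
  have ha1 : 1 ≤ a := by rw [ha]; linarith
  refine ⟨1 + 5 * (6 * (C * ((2 * a) * √(2 * a)))), by positivity, ?_⟩
  intro V J _ _ _ _ _ _ S t ht hdeg hne
  set n := Fintype.card V with hn
  have hn1 : 1 ≤ n := Fintype.card_pos
  set l := Nat.log 2 (n + 1) + 1 with hl
  have hl1 : 1 ≤ l := by omega
  have hnl : n + 1 < 2 ^ l := Nat.lt_pow_succ_log_self (by norm_num) _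
  set q := 2 * l + t + 3 with hq
  set Lh := 16 * q * t with hLh
  set Λ := A * (t + l) ^ 6 with hΛ
  set R0 := 160 * t * (Lh + Λ ^ 2) with hR0
  have hx1 : 1 ≤ (t + l) ^ 6 := Nat.one_le_pow _ _ (by omega)
  have hΛ32 : 32 * t ≤ Λ := by
    rw [hΛ]
    apply Nat.mul_le_mul hA
    calc t ≤ t + l := by omega
      _ = (t + l) ^ 1 := (pow_one _).symm
      _ ≤ (t + l) ^ 6 := Nat.pow_le_pow_right (by omega) (by norm_num)
  have hΛ1 : 1 ≤ Λ := by omega
  have hLh1 : 1 ≤ Lh := by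
    rw [hLh]
    exact Nat.one_le_iff_ne_zero.2 (by positivity)
  have hR0big : 160 ≤ R0 := by
    rw [hR0]
    calc 160 = 160 * 1 * 1 := by norm_num
      _ ≤ 160 * t * (Lh + Λ ^ 2) := by
        apply Nat.mul_le_mul (Nat.mul_le_mul_left _ ht)
        omega
  have hJ : Fintype.card J ≤ t * n := card_rows_le S t hdeg hne
  have ht2 : t + 1 ≤ 2 ^ t := Nat.lt_two_pow_self
  have hqpow : 2 ^ q = 8 * 2 ^ t * (2 ^ l * 2 ^ l) := by
    rw [hq, show 2 * l + t + 3 = 3 + t + (l + l) by ring, pow_add, pow_add, pow_add]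
    norm_num
  obtain ⟨k, k0, k1, k2, k3⟩ := hS3 V J S t Λ R0 Lh q ht ‹_› ‹_› hdeg hΛ32 (by omega) (by omega)
    (by rw [hLh]) (by
      rw [hqpow]
      have h1 : 3 * (n + 2) * Fintype.card J ≤ 3 * (2 * 2 ^ l) * (2 ^ t * 2 ^ l) := by
        apply Nat.mul_le_mul
        · apply Nat.mul_le_mul_left
          omega
        · refine hJ.trans (Nat.mul_le_mul (by omega) (by omega))
      refine lt_of_le_of_lt h1 ?_
      have h2 : 0 < 2 ^ t * (2 ^ l * 2 ^ l) := by positivity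
      calc 3 * (2 * 2 ^ l) * (2 ^ t * 2 ^ l) = 6 * (2 ^ t * (2 ^ l * 2 ^ l)) := by ring
        _ < 8 * (2 ^ t * (2 ^ l * 2 ^ l)) := by omega
        _ = _ := by ring)
    (by
      rw [hR0]
      calc 160 * t * (Lh + Λ ^ 2) = R0 := hR0.symm
        _ ≤ R0 ^ 2 := Nat.le_self_pow (by norm_num) _)
  have hkK : ∀ v, k v < l + 2 := by
    intro v
    have h1 := k0 v
    have h2 : 4 ^ k v ≤ (R0 ^ 2) ^ k v := by
      apply Nat.pow_le_pow_left
      calc 4 = 2 ^ 2 := by norm_num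
        _ ≤ R0 ^ 2 := Nat.pow_le_pow_left (by omega) 2
    have h3 : 4 ^ k v < 2 ^ (l + 2) := by
      calc 4 ^ k v ≤ 4 * n := h2.trans h1
        _ < 2 ^ l * 2 ^ 2 := by omega
        _ = 2 ^ (l + 2) := (pow_add 2 l 2).symm
    have h4 : (4 : ℕ) ^ k v = 2 ^ (2 * k v) := by
      rw [pow_mul]; norm_num
    rw [h4] at h3
    have := (Nat.pow_lt_pow_iff_right (by norm_num : 1 < 2)).1 h3
    omega
  set x : ℝ := ((t + l : ℕ) : ℝ) with hx
  set b : ℝ := 1 + Real.log x with hb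
  have ht1 : (1 : ℝ) ≤ t := by exact_mod_cast ht
  have hl1' : (1 : ℝ) ≤ l := by exact_mod_cast hl1
  have hxe : x = t + l := by rw [hx]; push_cast; ring
  have hx2 : 2 ≤ x := by rw [hxe]; linarith
  have hx0 : 0 < x := by linarith
  have hb1 : 1 ≤ b := by
    have := Real.log_nonneg (show (1 : ℝ) ≤ x by linarith)
    rw [hb]; linarith
  have hbx : b ≤ 2 * √x := by
    have h1 : Real.log x = 2 * Real.log (√x) := by
      rw [Real.log_sqrt hx0.le]; ring
    have h2 := Real.log_le_sub_one_of_pos (Real.sqrt_pos.2 hx0)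
    rw [hb, h1]; linarith
  have hLL := LL_bound hA ht hl1
  rw [← hq] at hLL
  rw [← hLh, ← hΛ, ← hR0, ← ha, ← hx, ← hb] at hLL
  set Lg := LL (16 * (R0 : ℝ) ^ 2 * (Lh : ℝ) * (Λ : ℝ)) (2 ^ q) with hLg
  set T0 : ℝ := √(32 * (t : ℝ)) * (C * ((a * b) * √(a * b))) with hT0
  have hT00 : 0 ≤ T0 := by
    rw [hT0]
    exact mul_nonneg (Real.sqrt_nonneg _) (mul_nonneg hC (LLs_nonneg _))
  have hsum : (Fintype.card V : ℝ) + Fintype.card (J ⊕ V) + 3 ≤ 2 ^ q := by
    have h1 : n + (Fintype.card J + n) + 3 ≤ 2 ^ q := by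
      rw [hqpow]
      have h2 : 1 ≤ 2 ^ l := Nat.one_le_two_pow
      have h3 : n ≤ 2 ^ l := by omega
      have h4 : Fintype.card J ≤ 2 ^ t * 2 ^ l := hJ.trans (Nat.mul_le_mul (by omega) h3)
      have h5 : 1 ≤ 2 ^ t := Nat.one_le_two_pow
      have h6 : 2 ^ l ≤ 2 ^ t * (2 ^ l * 2 ^ l) := by
        calc 2 ^ l = 1 * (2 ^ l * 1) := by ring
          _ ≤ 2 ^ t * (2 ^ l * 2 ^ l) := Nat.mul_le_mul h5 (Nat.mul_le_mul_left _ h2)
      have h7 : 2 ^ t * 2 ^ l ≤ 2 ^ t * (2 ^ l * 2 ^ l) := by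
        apply Nat.mul_le_mul_left
        calc 2 ^ l = 2 ^ l * 1 := (mul_one _).symm
          _ ≤ _ := Nat.mul_le_mul_left _ h2
      have h8 : 1 ≤ 2 ^ t * (2 ^ l * 2 ^ l) := h2.trans h6
      calc n + (Fintype.card J + n) + 3
          ≤ 2 ^ t * (2 ^ l * 2 ^ l) + (2 ^ t * (2 ^ l * 2 ^ l) + 2 ^ t * (2 ^ l * 2 ^ l))
            + 3 * (2 ^ t * (2 ^ l * 2 ^ l)) := by omega
        _ ≤ 8 * (2 ^ t * (2 ^ l * 2 ^ l)) := by omega
        _ = _ := by ring
    rw [Fintype.card_sum]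
    have h2 : ((n + (Fintype.card J + n) + 3 : ℕ) : ℝ) ≤ ((2 ^ q : ℕ) : ℝ) := by exact_mod_cast h1
    push_cast at h2 ⊢
    rw [← hn]
    linarith
  have hab : a * b * √(a * b) ≤ (a * √a) * (4 * x) := by
    rw [Real.sqrt_mul (by linarith)]
    have h1 : √b ≤ b := by
      rw [Real.sqrt_le_left (by linarith)]
      nlinarith
    have h2 : b * √b ≤ 4 * x := by
      calc b * √b ≤ b * b := mul_le_mul_of_nonneg_left h1 (by linarith)
        _ ≤ (2 * √x) * (2 * √x) := mul_le_mul hbx hbx (by linarith) (by positivity)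
        _ = 4 * (√x * √x) := by ring
        _ = 4 * x := by rw [Real.mul_self_sqrt hx0.le]
    calc a * b * (√a * √b) = (a * √a) * (b * √b) := by ring
      _ ≤ _ := mul_le_mul_of_nonneg_left h2 (LLs_nonneg a)
  have hsqΛ : √(Λ : ℝ) = √(A : ℝ) * x ^ 3 := by
    have e : (Λ : ℝ) = A * (x ^ 3) ^ 2 := by rw [hΛ, hx]; push_cast; ring
    rw [e, Real.sqrt_mul (by linarith), Real.sqrt_sq (by positivity)]
  have hΛ0 : (0 : ℝ) < Λ := by
    have : (1 : ℝ) ≤ Λ := by exact_mod_cast hΛ1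
    linarith
  have hsΛ : 0 < √(Λ : ℝ) := Real.sqrt_pos.2 hΛ0
  have hε : ((l + 2 : ℕ) : ℝ) * (T0 / √(Λ : ℝ)) ≤ 1 := by
    rw [← mul_div_assoc, div_le_one hsΛ, hsqΛ]
    have h1 : ((l + 2 : ℕ) : ℝ) ≤ 2 * x := by rw [hxe]; push_cast; linarith
    have h2 : √(32 * (t : ℝ)) ≤ 6 * √x := by
      have e6 : √((6 : ℝ) ^ 2 * x) = 6 * √x := by
        rw [Real.sqrt_mul (by norm_num), Real.sqrt_sq (by norm_num)]
      rw [← e6]
      apply Real.sqrt_le_sqrt
      rw [hxe]; nlinarith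
    have h3 : √x ≤ x := by
      rw [Real.sqrt_le_left (by linarith)]
      nlinarith
    calc ((l + 2 : ℕ) : ℝ) * T0 ≤ (2 * x) * ((6 * √x) * (C * ((a * √a) * (4 * x)))) := by
          apply mul_le_mul h1 _ hT00 (by linarith)
          rw [hT0]
          apply mul_le_mul h2 _ (mul_nonneg hC (LLs_nonneg _)) (by positivity)
          exact mul_le_mul_of_nonneg_left hab hC
      _ = (48 * C * (a * √a)) * (x * x * √x) := by ring
      _ ≤ √(A : ℝ) * x ^ 3 := by
          apply mul_le_mul hA2 _ (by positivity) (Real.sqrt_nonneg _)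
          calc x * x * √x ≤ x * x * x := mul_le_mul_of_nonneg_left h3 (by positivity)
            _ = x ^ 3 := by ring
  obtain ⟨χ, c1, c2⟩ := rounds hR1 hRT S ht hΛ1 (by omega) hLh1 k1 k2 k3 hkK hsum
    (T0 := T0) (by
      rw [hT0]
      apply mul_le_mul_of_nonneg_left _ (Real.sqrt_nonneg _)
      apply mul_le_mul_of_nonneg_left _ hC
      exact mul_sqrt_mono hLL) hT00 hε
  refine ⟨χ, c1, fun j => (c2 j).trans ?_⟩
  set M := MM t n with hM
  have hM1 : 1 ≤ M := MM_ge ht1 (Nat.cast_nonneg n)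
  have hbM : b ≤ 2 * M := by
    rw [hb, hx, hM, hl]
    exact logx_le ht
  have hst : 1 ≤ √(t : ℝ) := by rw [Real.one_le_sqrt]; exact ht1
  have hsM : 1 ≤ √M := by rw [Real.one_le_sqrt]; exact hM1
  have h1 : T0 * (((l + 2 : ℕ) : ℝ) / √(Λ : ℝ)) ≤ 1 := by
    calc T0 * (((l + 2 : ℕ) : ℝ) / √(Λ : ℝ)) = ((l + 2 : ℕ) : ℝ) * (T0 / √(Λ : ℝ)) := by ring
      _ ≤ 1 := hε
  have h2 : T0 ≤ 6 * (C * ((2 * a) * √(2 * a))) * (√t * M * √M) := by
    have h3 : √(32 * (t : ℝ)) ≤ 6 * √t := by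
      have e6 : √((6 : ℝ) ^ 2 * t) = 6 * √(t : ℝ) := by
        rw [Real.sqrt_mul (by norm_num), Real.sqrt_sq (by norm_num)]
      rw [← e6]
      apply Real.sqrt_le_sqrt
      nlinarith
    have h4 : a * b * √(a * b) ≤ ((2 * a) * √(2 * a)) * (M * √M) := by
      have h5 : a * b ≤ (2 * a) * M := by nlinarith
      refine (mul_sqrt_mono h5).trans (le_of_eq ?_)
      rw [Real.sqrt_mul (by linarith)]
      ring
    calc T0 ≤ (6 * √t) * (C * (((2 * a) * √(2 * a)) * (M * √M))) := by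
          rw [hT0]
          apply mul_le_mul h3 _ (mul_nonneg hC (LLs_nonneg _)) (by positivity)
          exact mul_le_mul_of_nonneg_left h4 hC
      _ = _ := by ring
  have h6 : 1 ≤ √t * M * √M := by
    calc (1 : ℝ) = 1 * 1 * 1 := by ring
      _ ≤ √t * M * √M := by
        apply mul_le_mul (mul_le_mul hst hM1 (by norm_num) (by linarith)) hsM (by norm_num)
          (by positivity)
  calc T0 * (((l + 2 : ℕ) : ℝ) / √(Λ : ℝ) + 5)
      = T0 * (((l + 2 : ℕ) : ℝ) / √(Λ : ℝ)) + 5 * T0 := by ring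
    _ ≤ 1 + 5 * (6 * (C * ((2 * a) * √(2 * a))) * (√t * M * √M)) := by linarith
    _ ≤ 1 * (√t * M * √M) + 5 * (6 * (C * ((2 * a) * √(2 * a))) * (√t * M * √M)) := by linarith
    _ = _ := by ring

/-- THEOREM O from its modules. -/
theorem fin_proof (hS3 : S3) (hR1 : R1) {C : ℝ} (hRT : RT C) : ∃ C' : ℝ, Fin0 C' := by
  classical
  obtain ⟨C', hC'0, hC'⟩ := fin_aux hS3 hR1 (le_max_right C 0) (RT_mono (le_max_left C 0) hRT)
  refine ⟨C', ?_⟩
  intro V J _ _ _ S t ht hdeg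
  have hM0 : 0 ≤ C' * (√t * (1 + Real.log t + Real.log (1 + Real.log (Fintype.card V + 1))) *
      √(1 + Real.log t + Real.log (1 + Real.log (Fintype.card V + 1)))) := by
    have ht1 : (1 : ℝ) ≤ t := by exact_mod_cast ht
    have h := MM_ge ht1 (Nat.cast_nonneg (Fintype.card V))
    unfold MM at h
    have : 0 ≤ 1 + Real.log t + Real.log (1 + Real.log (Fintype.card V + 1)) := by linarith
    positivity
  by_cases hall : ∀ j, ¬ (S j).Nonempty
  · refine ⟨fun _ => 1, fun _ => Or.inl rfl, fun j => ?_⟩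
    have h0 : S j = ∅ := Finset.not_nonempty_iff_eq_empty.1 (hall j)
    rw [h0]
    simpa using hM0
  push Not at hall
  obtain ⟨j0, v0, hv0⟩ := hall
  let J' := {j : J // (S j).Nonempty}
  have : Nonempty V := ⟨v0⟩
  have : Nonempty J' := ⟨⟨j0, v0, hv0⟩⟩
  obtain ⟨χ, c1, c2⟩ := hC' V J' (fun j => S j.1) t ht (fun v => by
    refine le_trans ?_ (hdeg v)
    refine Finset.card_le_card_of_injOn (fun j : J' => j.1) (fun j hj => ?_)
      (fun a _ b _ h => Subtype.ext h)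
    rw [Finset.mem_coe, Finset.mem_filter] at hj ⊢
    exact ⟨Finset.mem_univ _, hj.2⟩) (fun j => j.2)
  refine ⟨fun v => if χ v = 1 then 1 else -1, fun v => ?_, fun j => ?_⟩
  · by_cases h : χ v = 1
    · left; simp [h]
    · right; simp [h]
  · by_cases hj : (S j).Nonempty
    · have h1 := c2 ⟨j, hj⟩
      have h2 : ((∑ v ∈ S j, (if χ v = 1 then 1 else -1) : ℤ) : ℝ) = ∑ v ∈ S j, χ v := by
        push_cast
        refine Finset.sum_congr rfl fun v _ => ?_
        by_cases h : χ v = 1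
        · simp [h]
        · have h3 : χ v = -1 := by
            rcases abs_eq (zero_le_one) |>.1 (c1 v) with h4 | h4
            · exact absurd h4 h
            · exact h4
          simp [h3]
          norm_num
      rw [h2]
      exact h1
    · have h0 : S j = ∅ := Finset.not_nonempty_iff_eq_empty.1 hj
      rw [h0]
      simpa using hM0

end Pool.Agent.Helper50.BO
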