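import Pool.Agent.Helper50.BO.RoundsP
import Pool.Agent.Helper50.BO.Fin2

namespace Pool.Agent.Helper50.BO

open Matrix Finset Pool.Agent.Helper66.BO Pool.Agent.Helper60.BO

theorem gs_nonneg {x : ℝ} (hx : 1 ≤ x) : 0 ≤ gs x := by
  unfold gs
  have := Real.log_nonneg hx
  positivity

theorem gs_mono {x y : ℝ} (hx : 1 ≤ x) (h : x ≤ y) : gs x ≤ gs y := by
  unfold gs
  have h1 := Real.log_nonneg hx
  have h2 := Real.log_le_log (by linarith) h
  exact mul_le_mul (Real.sqrt_le_sqrt h) (by linarith) (by linarith) (Real.sqrt_nonneg _)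

theorem gs_mul {x y : ℝ} (hx : 1 ≤ x) (hy : 1 ≤ y) : gs (x * y) ≤ gs x * gs y := by
  unfold gs
  rw [Real.sqrt_mul (by linarith), Real.log_mul (by linarith) (by linarith)]
  have h1 := Real.log_nonneg hx
  have h2 := Real.log_nonneg hy
  calc √x * √y * (1 + (Real.log x + Real.log y))
      ≤ √x * √y * ((1 + Real.log x) * (1 + Real.log y)) := by
        apply mul_le_mul_of_nonneg_left _ (by positivity)
        nlinarith [mul_nonneg h1 h2]
    _ = _ := by ring

theorem one_add_log_le {x : ℝ} (hx : 1 ≤ x) : 1 + Real.log x ≤ 4 * √√x := by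
  have h0 : 0 < √x := Real.sqrt_pos.2 (by linarith)
  have h1 : Real.log x = 4 * Real.log √√x := by
    rw [Real.log_sqrt h0.le, Real.log_sqrt (by linarith)]; ring
  have h2 := Real.log_le_sub_one_of_pos (Real.sqrt_pos.2 h0)
  rw [h1]
  linarith

theorem one_add_log_sq {x : ℝ} (hx : 1 ≤ x) : (1 + Real.log x) ^ 2 ≤ 16 * √x := by
  have h1 := one_add_log_le hx
  have h2 := Real.log_nonneg hx
  calc (1 + Real.log x) ^ 2 ≤ (4 * √√x) ^ 2 := pow_le_pow_left₀ (by linarith) h1 2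
    _ = _ := by rw [mul_pow, Real.sq_sqrt (Real.sqrt_nonneg _)]; norm_num

theorem gs_le {x : ℝ} (hx : 1 ≤ x) : gs x ≤ 4 * x := by
  unfold gs
  have h1 := one_add_log_le hx
  have h3 : 1 ≤ √x := by rw [Real.one_le_sqrt]; exact hx
  have h2 : √√x ≤ √x := by
    rw [Real.sqrt_le_left (by linarith)]
    nlinarith
  have h4 := Real.mul_self_sqrt (show 0 ≤ x by linarith)
  calc √x * (1 + Real.log x) ≤ √x * (4 * √x) :=
        mul_le_mul_of_nonneg_left (by linarith) (by linarith)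
    _ = 4 * (√x * √x) := by ring
    _ = 4 * x := by rw [h4]

/-- choice of the large constant -/
theorem exists_D {C : ℝ} (hC : 0 ≤ C) : ∃ D : ℕ, 32 ≤ D ∧
    1000000 * C * (55 * (1 + Real.log D)) ≤ D := by
  set y : ℕ := ⌈110000000 * (C + 1)⌉₊ with hy
  have hy1 : 110000000 * (C + 1) ≤ (y : ℝ) := Nat.le_ceil _
  have hy2 : (1 : ℝ) ≤ y := by nlinarith
  have hy0 : (0 : ℝ) < y := by linarith
  refine ⟨y ^ 2, ?_, ?_⟩
  · have h2 : 6 ≤ y := by
      have : (6 : ℝ) ≤ y := by nlinarith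
      exact_mod_cast this
    calc 32 ≤ 6 ^ 2 := by norm_num
      _ ≤ y ^ 2 := Nat.pow_le_pow_left h2 2
  · push_cast
    rw [Real.log_pow]
    have hl : Real.log y ≤ y - 1 := Real.log_le_sub_one_of_pos hy0
    push_cast
    calc 1000000 * C * (55 * (1 + 2 * Real.log y)) ≤ 1000000 * C * (55 * (2 * y)) := by
          apply mul_le_mul_of_nonneg_left _ (by positivity)
          linarith
      _ = (110000000 * C) * y := by ring
      _ ≤ y * y := by
          apply mul_le_mul_of_nonneg_right _ hy0.le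
          nlinarith
      _ = y ^ 2 := by ring

/-- bounds for the parameters -/
theorem par_bounds {D t l : ℕ} (hD : 32 ≤ D) (ht : 1 ≤ t) (hl : 1 ≤ l) :
    LL (64 * (t : ℝ) * (2 * (16 * ((4 * (D * (t + l) ^ 2) ^ 8 * 2 ^ (Nat.log 2 (t + l) + 1) : ℕ) : ℝ)
      ^ 2 * ((16 * (2 * l + t + 3) * t : ℕ) : ℝ))
      * ((4 * (D * (t + l) ^ 2) ^ 8 * 2 ^ (Nat.log 2 (t + l) + 1) : ℕ) : ℝ))) (2 ^ (2 * l + t + 3))
      ≤ 55 * (1 + Real.log D) * (1 + Real.log ((t + l : ℕ) : ℝ)) ∧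
    Real.log (1 + ((4 * (D * (t + l) ^ 2) ^ 8 * 2 ^ (Nat.log 2 (t + l) + 1) : ℕ) : ℝ))
      ≤ 55 * (1 + Real.log D) * (1 + Real.log ((t + l : ℕ) : ℝ)) := by
  set x : ℝ := ((t + l : ℕ) : ℝ) with hx
  have hA1 : (32 : ℝ) ≤ D := by exact_mod_cast hD
  have ht1 : (1 : ℝ) ≤ t := by exact_mod_cast ht
  have hl1 : (1 : ℝ) ≤ l := by exact_mod_cast hl
  have hxe : x = t + l := by rw [hx]; push_cast; ring
  have hx2 : 2 ≤ x := by rw [hxe]; linarith
  have hx1 : 1 ≤ x := by linarith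
  have htx : (t : ℝ) ≤ x := by rw [hxe]; linarith
  have hq : ((2 * l + t + 3 : ℕ) : ℝ) ≤ 5 * x := by rw [hxe]; push_cast; linarith
  have hq0 : (6 : ℝ) ≤ ((2 * l + t + 3 : ℕ) : ℝ) := by push_cast; linarith
  have hLh : ((16 * (2 * l + t + 3) * t : ℕ) : ℝ) ≤ 80 * x ^ 2 := by
    have e : ((16 * (2 * l + t + 3) * t : ℕ) : ℝ) = 16 * ((2 * l + t + 3 : ℕ) : ℝ) * t := by
      push_cast; ring
    rw [e]
    calc 16 * ((2 * l + t + 3 : ℕ) : ℝ) * t ≤ 16 * (5 * x) * x := by
          apply mul_le_mul _ htx (by linarith) (by positivity)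
          linarith
      _ = _ := by ring
  have hLh1 : (1 : ℝ) ≤ ((16 * (2 * l + t + 3) * t : ℕ) : ℝ) := by
    have : 1 ≤ 16 * (2 * l + t + 3) * t := by
      have : 1 * 1 ≤ 16 * (2 * l + t + 3) * t := Nat.mul_le_mul (by omega) ht
      simpa using this
    exact_mod_cast this
  have hpow : ((2 ^ (Nat.log 2 (t + l) + 1) : ℕ) : ℝ) ≤ 2 * x := by
    have h1 : 2 ^ Nat.log 2 (t + l) ≤ t + l := Nat.pow_log_le_self 2 (by omega)
    have h2 : 2 ^ (Nat.log 2 (t + l) + 1) ≤ 2 * (t + l) := by rw [pow_succ]; omega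
    have h3 : ((2 ^ (Nat.log 2 (t + l) + 1) : ℕ) : ℝ) ≤ ((2 * (t + l) : ℕ) : ℝ) := by
      exact_mod_cast h2
    refine h3.trans (le_of_eq ?_)
    rw [hx]; push_cast; ring
  have hpow1 : (1 : ℝ) ≤ ((2 ^ (Nat.log 2 (t + l) + 1) : ℕ) : ℝ) := by
    have : 1 ≤ 2 ^ (Nat.log 2 (t + l) + 1) := Nat.one_le_two_pow
    exact_mod_cast this
  set R := ((4 * (D * (t + l) ^ 2) ^ 8 * 2 ^ (Nat.log 2 (t + l) + 1) : ℕ) : ℝ) with hR
  have hRe : R = 4 * (D * x ^ 2) ^ 8 * ((2 ^ (Nat.log 2 (t + l) + 1) : ℕ) : ℝ) := by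
    rw [hR, hx]; push_cast; ring
  have hRle : R ≤ 8 * D ^ 8 * x ^ 17 := by
    rw [hRe]
    calc 4 * ((D : ℝ) * x ^ 2) ^ 8 * ((2 ^ (Nat.log 2 (t + l) + 1) : ℕ) : ℝ)
        ≤ 4 * ((D : ℝ) * x ^ 2) ^ 8 * (2 * x) := mul_le_mul_of_nonneg_left hpow (by positivity)
      _ = _ := by ring
  have hR1 : 1 ≤ R := by
    rw [hRe]
    have h1 : 1 ≤ (D : ℝ) * x ^ 2 := by
      have : 1 ≤ x ^ 2 := one_le_pow₀ hx1
      nlinarith
    have h2 : 1 ≤ ((D : ℝ) * x ^ 2) ^ 8 := one_le_pow₀ h1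
    nlinarith
  set Lh := ((16 * (2 * l + t + 3) * t : ℕ) : ℝ) with hLhd
  set q := ((2 * l + t + 3 : ℕ) : ℝ) with hqd
  have hlogx : 0 ≤ Real.log x := Real.log_nonneg hx1
  have hlogA : 0 ≤ Real.log D := Real.log_nonneg (by linarith)
  have hD0 : (0 : ℝ) < D := by linarith
  have hx0 : 0 < x := by linarith
  constructor
  · have hB : 64 * (t : ℝ) * (2 * (16 * R ^ 2 * Lh) * R) ≤ D ^ 30 * x ^ 54 := by
      calc 64 * (t : ℝ) * (2 * (16 * R ^ 2 * Lh) * R)
          = 2048 * (t * (R ^ 3 * Lh)) := by ring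
        _ ≤ 2048 * (x * ((8 * D ^ 8 * x ^ 17) ^ 3 * (80 * x ^ 2))) := by
            apply mul_le_mul_of_nonneg_left _ (by norm_num)
            apply mul_le_mul htx _ (by positivity) (by positivity)
            apply mul_le_mul _ hLh (by linarith) (by positivity)
            exact pow_le_pow_left₀ (by linarith) hRle 3
        _ = 83886080 * (D ^ 24 * x ^ 54) := by ring
        _ ≤ D ^ 6 * (D ^ 24 * x ^ 54) := by
            apply mul_le_mul_of_nonneg_right _ (by positivity)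
            calc (83886080 : ℝ) ≤ 32 ^ 6 := by norm_num
              _ ≤ (D : ℝ) ^ 6 := pow_le_pow_left₀ (by norm_num) hA1 6
        _ = _ := by ring
    have hB0 : 0 < 64 * (t : ℝ) * (2 * (16 * R ^ 2 * Lh) * R) := by positivity
    have h1 : Real.log (64 * (t : ℝ) * (2 * (16 * R ^ 2 * Lh) * R))
        ≤ 30 * Real.log D + 54 * Real.log x := by
      refine (Real.log_le_log hB0 hB).trans (le_of_eq ?_)
      rw [Real.log_mul (by positivity) (by positivity), Real.log_pow, Real.log_pow]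
      push_cast; ring
    have h2 : Real.log (Real.log (2 ^ (2 * l + t + 3))) ≤ 2 + Real.log x := by
      rw [Real.log_pow, ← hqd]
      have h3 : q * Real.log 2 ≤ 5 * x := by
        have h4 := Real.log_two_lt_d9
        have h5 := Real.log_two_gt_d9
        nlinarith
      have h6 : 0 < q * Real.log 2 := by
        have h5 := Real.log_two_gt_d9
        apply mul_pos (by linarith) (by linarith)
      refine (Real.log_le_log h6 h3).trans ?_
      rw [Real.log_mul (by norm_num) (by linarith)]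
      have h7 : Real.log 5 ≤ 2 := by
        rw [Real.log_le_iff_le_exp (by norm_num)]
        have h8 := Real.exp_one_gt_d9
        have h9 : Real.exp 2 = Real.exp 1 * Real.exp 1 := by rw [← Real.exp_add]; norm_num
        rw [h9]; nlinarith
      linarith
    unfold LL
    nlinarith [mul_nonneg hlogA hlogx]
  · have h1 : 1 + R ≤ D ^ 9 * x ^ 17 := by
      calc 1 + R ≤ 2 * (8 * D ^ 8 * x ^ 17) := by linarith
        _ = 16 * (D ^ 8 * x ^ 17) := by ring
        _ ≤ D * (D ^ 8 * x ^ 17) := by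
            apply mul_le_mul_of_nonneg_right _ (by positivity)
            linarith
        _ = _ := by ring
    have h2 : Real.log (1 + R) ≤ 9 * Real.log D + 17 * Real.log x := by
      refine (Real.log_le_log (by linarith) h1).trans (le_of_eq ?_)
      rw [Real.log_mul (by positivity) (by positivity), Real.log_pow, Real.log_pow]
      push_cast; ring
    nlinarith [mul_nonneg hlogA hlogx]

end Pool.Agent.Helper50.BO
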