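import Pool.Agent.Helper50.BO.FinP

namespace Pool.Agent.Helper50.BO

open Matrix Finset Pool.Agent.Helper66.BO Pool.Agent.Helper60.BO

/-- the bound for the entries -/
noncomputable def ThP (m : ℕ) (τ lg : ℝ) : ℝ := 3 + 2 / m * (√τ * (2 * Real.log lg + 6))

theorem theta_le (hTHP : THP) {m : ℕ} (hm : 1 ≤ m) {s0 τ : ℝ} (hs0 : 16 ≤ s0) (hτ : 0 ≤ τ)
    {Λ s : Fin m → ℝ} (hs : ∀ x, s x = s0 * 2 ^ (x : ℕ)) (hΛ : ∀ x, Λ x = s x / Real.log (1 + s x))
    (hΛτ : ∀ x, τ ≤ Λ x) (hΛ0 : ∀ x, 0 < Λ x) {Y : ℝ} (hY : 0 ≤ Y) :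
    2 / Fintype.card (Fin m) * ∑ x, min √((if s x ≤ Y then 1 else Λ x) * τ / Λ x)
      (1 + √(Y * τ / Λ x)) + 1 ≤ ThP m τ (Real.log (1 + s0 * 2 ^ m)) := by
  have hm0 : (0 : ℝ) < m := by
    have : (1 : ℝ) ≤ m := by exact_mod_cast hm
    linarith
  have hterm : ∀ x : Fin m, min √((if s x ≤ Y then 1 else Λ x) * τ / Λ x) (1 + √(Y * τ / Λ x))
      ≤ 1 + (if Y < s0 * 2 ^ (x : ℕ) then
    min (√τ) √(Y * τ * Real.log (1 + s0 * 2 ^ (x : ℕ)) / (s0 * 2 ^ (x : ℕ))) else 0) := by
    intro x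
    by_cases h : s x ≤ Y
    · have h' : ¬ Y < s0 * 2 ^ (x : ℕ) := by rw [← hs x]; exact not_lt.2 h
      rw [if_pos h, if_neg h', one_mul, add_zero]
      refine (min_le_left _ _).trans ?_
      rw [Real.sqrt_le_one]
      exact (div_le_one (hΛ0 x)).2 (hΛτ x)
    · have h' : Y < s0 * 2 ^ (x : ℕ) := by rw [← hs x]; exact not_le.1 h
      rw [if_neg h, if_pos h']
      have e1 : Λ x * τ / Λ x = τ := by field_simp [(hΛ0 x).ne']
      have e2 : Y * τ / Λ x = Y * τ * Real.log (1 + s0 * 2 ^ (x : ℕ)) / (s0 * 2 ^ (x : ℕ)) := by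
        rw [hΛ x, hs x, div_div_eq_mul_div]
      rw [e1, e2]
      set b := √(Y * τ * Real.log (1 + s0 * 2 ^ (x : ℕ)) / (s0 * 2 ^ (x : ℕ)))
      rcases le_total (√τ) b with h1 | h1
      · rw [min_eq_left h1]
        exact (min_le_left _ _).trans (by linarith)
      · rw [min_eq_right h1]
        exact min_le_right _ _
  have h2 := Finset.sum_le_sum fun x (_ : x ∈ (Finset.univ : Finset (Fin m))) => hterm x
  rw [Finset.sum_add_distrib, Finset.sum_const, Finset.card_univ, Fintype.card_fin,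
    nsmul_eq_mul, mul_one] at h2
  have h3 := hTHP m s0 τ Y hm hs0 hτ hY
  rw [Fintype.card_fin]
  unfold ThP
  have h4 : 2 / (m : ℝ) * ∑ x, min √((if s x ≤ Y then 1 else Λ x) * τ / Λ x) (1 + √(Y * τ / Λ x))
      ≤ 2 / (m : ℝ) * (m + √τ * (2 * Real.log (Real.log (1 + s0 * 2 ^ m)) + 6)) := by
    apply mul_le_mul_of_nonneg_left _ (by positivity)
    linarith
  have h5 : 2 / (m : ℝ) * (m + √τ * (2 * Real.log (Real.log (1 + s0 * 2 ^ m)) + 6))
      = 2 + 2 / m * (√τ * (2 * Real.log (Real.log (1 + s0 * 2 ^ m)) + 6)) := by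
    field_simp
  linarith

/-- numeric bound of the round error -/
theorem T0_le {C t m a b L lg : ℝ} (hC : 0 ≤ C) (ht : 1 ≤ t) (ha : 1 ≤ a) (hb : 1 ≤ b)
    (hm : 0 < m) (hmb : b ≤ 2 * m) (hL1 : 1 ≤ L) (hL : L ≤ a * b) (hlg1 : 1 ≤ lg)
    (hlg : lg ≤ a * b) :
    C * (√(64 * t) + (3 + 2 / m * (√(64 * t) * (2 * Real.log lg + 6))) * (1 + gs L))
      ≤ C * (100000 * a) * (√t + gs b) := by
  have e8 : √(64 * t) = 8 * √t := by
    rw [Real.sqrt_mul (by norm_num), show (64 : ℝ) = 8 ^ 2 by norm_num,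
      Real.sqrt_sq (by norm_num)]
  rw [e8]
  have hst : 0 ≤ √t := Real.sqrt_nonneg t
  have hla := Real.log_nonneg ha
  have hlb := Real.log_nonneg hb
  have hab : 1 ≤ a * b := by nlinarith
  have hllg : Real.log lg ≤ Real.log a + Real.log b := by
    rw [← Real.log_mul (by linarith) (by linarith)]
    exact Real.log_le_log (by linarith) hlg
  have hllg0 := Real.log_nonneg hlg1
  set g := gs a with hg
  have hg1 : 1 ≤ g := by
    rw [hg]; unfold gs
    have h1 : 1 ≤ √a := by rw [Real.one_le_sqrt]; exact ha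
    nlinarith
  have hgb1 : 1 ≤ gs b := by
    unfold gs
    have h1 : 1 ≤ √b := by rw [Real.one_le_sqrt]; exact hb
    nlinarith
  have hgL : gs L ≤ g * gs b := (gs_mono hL1 hL).trans (gs_mul ha hb)
  have h1 : 1 + gs L ≤ 2 * (g * gs b) := by nlinarith
  have hgL0 : 0 ≤ gs L := gs_nonneg hL1
  -- the entries
  have h2 : 2 / m ≤ 4 / b := by
    rw [div_le_div_iff₀ hm (by linarith)]; linarith
  have h3 : 2 * Real.log lg + 6 ≤ 6 * ((1 + Real.log a) * (1 + Real.log b)) := by
    nlinarith [mul_nonneg hla hlb]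
  have h4 : 3 + 2 / m * (8 * √t * (2 * Real.log lg + 6))
      ≤ 3 + 4 / b * (8 * √t * (6 * ((1 + Real.log a) * (1 + Real.log b)))) := by
    have : 2 / m * (8 * √t * (2 * Real.log lg + 6))
        ≤ 4 / b * (8 * √t * (6 * ((1 + Real.log a) * (1 + Real.log b)))) := by
      apply mul_le_mul h2 _ (by positivity) (by positivity)
      exact mul_le_mul_of_nonneg_left h3 (by positivity)
    linarith
  have hga : g * (1 + Real.log a) ≤ 16 * a := by
    rw [hg]; unfold gs
    have h5 := one_add_log_sq ha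
    have h6 := Real.mul_self_sqrt (show 0 ≤ a by linarith)
    calc √a * (1 + Real.log a) * (1 + Real.log a) = √a * (1 + Real.log a) ^ 2 := by ring
      _ ≤ √a * (16 * √a) := mul_le_mul_of_nonneg_left h5 (Real.sqrt_nonneg _)
      _ = 16 * (√a * √a) := by ring
      _ = 16 * a := by rw [h6]
  have hga' : g ≤ 16 * a := by nlinarith
  have hbb : (1 + Real.log b) * gs b ≤ 16 * b := by
    unfold gs
    have h5 := one_add_log_sq hb
    have h6 := Real.mul_self_sqrt (show 0 ≤ b by linarith)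
    calc (1 + Real.log b) * (√b * (1 + Real.log b)) = √b * (1 + Real.log b) ^ 2 := by ring
      _ ≤ √b * (16 * √b) := mul_le_mul_of_nonneg_left h5 (Real.sqrt_nonneg _)
      _ = 16 * (√b * √b) := by ring
      _ = 16 * b := by rw [h6]
  have h7 : (3 + 2 / m * (8 * √t * (2 * Real.log lg + 6))) * (1 + gs L)
      ≤ 96 * a * gs b + 98304 * a * √t := by
    calc (3 + 2 / m * (8 * √t * (2 * Real.log lg + 6))) * (1 + gs L)
        ≤ (3 + 4 / b * (8 * √t * (6 * ((1 + Real.log a) * (1 + Real.log b))))) * (2 * (g * gs b)) := by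
          apply mul_le_mul h4 h1 (by linarith) (by positivity)
      _ = 6 * g * gs b + 384 * √t / b * (g * (1 + Real.log a)) * ((1 + Real.log b) * gs b) := by
          ring
      _ ≤ 6 * (16 * a) * gs b + 384 * √t / b * (16 * a) * (16 * b) := by
          apply add_le_add
          · apply mul_le_mul_of_nonneg_right _ (by linarith)
            linarith
          · apply mul_le_mul _ hbb (by positivity) (by positivity)
            exact mul_le_mul_of_nonneg_left hga (by positivity)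
      _ = 96 * a * gs b + 98304 * a * √t := by
          field_simp
          ring
  calc C * (8 * √t + (3 + 2 / m * (8 * √t * (2 * Real.log lg + 6))) * (1 + gs L))
      ≤ C * (8 * √t + (96 * a * gs b + 98304 * a * √t)) := by
        apply mul_le_mul_of_nonneg_left _ hC
        linarith
    _ ≤ C * (100000 * a * (√t + gs b)) := by
        apply mul_le_mul_of_nonneg_left _ hC
        nlinarith [mul_nonneg (by linarith : (0 : ℝ) ≤ a - 1) hst,
          mul_nonneg (by linarith : (0 : ℝ) ≤ a) (by linarith : 0 ≤ gs b),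
          mul_nonneg (by linarith : (0 : ℝ) ≤ a) hst]
    _ = _ := by ring

end Pool.Agent.Helper50.BO
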