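import Pool.Agent.Helper50.BO.Fin

namespace Pool.Agent.Helper50.BO

theorem LL_ge_one {B N : ℝ} (hB : 1 ≤ B) (hN : 3 ≤ N) : 1 ≤ LL B N := by
  unfold LL
  have h1 := Real.log_nonneg hB
  have h2 : 1 ≤ Real.log N := by
    rw [Real.le_log_iff_exp_le (by linarith)]
    have := Real.exp_one_lt_d9
    linarith
  have h3 := Real.log_nonneg h2
  linarith

/-- the round theorem from the partial rounding and the completion -/
theorem rt_proof {C1 C2 : ℝ} (h1 : ST C1) (h2 : FL C2) :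
    ∃ C : ℝ, RT C := by
  refine ⟨|C1| + |C2| * √(1 + |C1|), ?_⟩
  intro V J _ _ c z B N hB hN hcol hrow hz
  have hN3 : 3 ≤ N := by
    have a1 : (0 : ℝ) ≤ Fintype.card V := Nat.cast_nonneg _
    have a2 : (0 : ℝ) ≤ Fintype.card J := Nat.cast_nonneg _
    linarith
  have hL := LL_ge_one hB hN3
  obtain ⟨y, g, al, om, nc, s1, s2, s3, s4, s5, s6, s7, s8, s9, s10, s11⟩ :=
    h1 V J c z B N hB hN hcol hrow hz
  obtain ⟨χ, f1, f2, f3⟩ := h2 V J c y g al om N nc s1 s2 s3 s4 hN hcol s5 s7 s8 s9 s10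
  refine ⟨χ, f1, fun j => ?_⟩
  have e : ∑ i, c j i * (χ i - z i) = ∑ i, c j i * (χ i - y i) + ∑ i, c j i * (y i - z i) := by
    rw [← Finset.sum_add_distrib]
    exact Finset.sum_congr rfl fun i _ => by ring
  rw [e]
  refine (abs_add_le _ _).trans ?_
  set L := LL B N with hLd
  have hsL : 1 ≤ √L := by rw [Real.one_le_sqrt]; exact hL
  have a1 := s6 j
  have a2 := f3 j
  have a3 : C1 * (L * √L) ≤ |C1| * (L * √L) :=
    mul_le_mul_of_nonneg_right (le_abs_self _) (LLs_nonneg _)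
  have a4 : √(1 + Real.log (nc / al)) ≤ √(1 + |C1|) * √L := by
    rw [← Real.sqrt_mul (by positivity)]
    apply Real.sqrt_le_sqrt
    have b1 : C1 * L ≤ |C1| * L := mul_le_mul_of_nonneg_right (le_abs_self _) (by linarith)
    nlinarith
  have a5 : C2 * √(1 + Real.log (nc / al)) ≤ |C2| * √(1 + |C1|) * (L * √L) := by
    calc C2 * √(1 + Real.log (nc / al)) ≤ |C2| * √(1 + Real.log (nc / al)) :=
          mul_le_mul_of_nonneg_right (le_abs_self _) (Real.sqrt_nonneg _)
      _ ≤ |C2| * (√(1 + |C1|) * √L) := mul_le_mul_of_nonneg_left a4 (abs_nonneg _)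
      _ = |C2| * √(1 + |C1|) * (1 * √L) := by ring
      _ ≤ |C2| * √(1 + |C1|) * (L * √L) := by
          apply mul_le_mul_of_nonneg_left _ (by positivity)
          exact mul_le_mul_of_nonneg_right hL (by linarith)
  calc |∑ i, c j i * (χ i - y i)| + |∑ i, c j i * (y i - z i)|
      ≤ |C2| * √(1 + |C1|) * (L * √L) + |C1| * (L * √L) := add_le_add (a2.trans a5) (a1.trans a3)
    _ = _ := by ring

end Pool.Agent.Helper50.BO
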