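import Pool.Agent.Helper50.BO.Acc

namespace Pool.Agent.Helper50.BO

open Matrix Finset

variable {V J : Type} [Fintype V] [Fintype J] [DecidableEq V] [DecidableEq J]

omit [Fintype V] [Fintype J] [DecidableEq V] [DecidableEq J] in
theorem ridge_ge_one {Λ R0 : ℕ} (hΛ : 1 ≤ Λ) (T : Finset V) (k : V → ℕ) (i : ℕ) :
    1 ≤ ridge Λ R0 T k i := by
  unfold ridge
  split_ifs
  · exact le_rfl
  · exact le_max_left _ _
  · exact_mod_cast hΛ

omit [Fintype V] [Fintype J] [DecidableEq V] [DecidableEq J] in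
theorem ridge_le {Λ R0 : ℕ} (hΛ : 1 ≤ Λ) (hR : 1 ≤ R0) (T : Finset V) (k : V → ℕ) (i : ℕ) :
    ridge Λ R0 T k i ≤ Λ := by
  have h1 : (1 : ℝ) ≤ Λ := by exact_mod_cast hΛ
  have h2 : (1 : ℝ) ≤ R0 := by exact_mod_cast hR
  unfold ridge
  split_ifs
  · exact h1
  · apply max_le h1
    apply div_le_self (by linarith)
    exact one_le_pow₀ h2
  · exact le_rfl

theorem rounds (hR1 : R1) {C : ℝ} (hRT : RT C) (S : J → Finset V) {t Λ R0 Lh : ℕ}
    {k : V → ℕ} (ht : 1 ≤ t) (hΛ : 1 ≤ Λ) (hR : 4 ≤ R0) (hLh : 1 ≤ Lh)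
    (P1 : ∀ i u, k u = i → lv (LM S Λ R0 k (i + 1)) (inc S u) ≤ 32 * t / Λ)
    (P2 : ∀ i j u w, ((S j).filter fun v => i ≤ k v).card ≤ 17 * R0 ^ 2 * (Lh + Λ ^ 2) →
      u ∈ S j → k u = i → w ∈ S j → k w ≤ i + 2)
    (P3 : ∀ i, ∀ y : J → ℝ, ∑ u ∈ exq k i, (inc S u ⬝ᵥ y) ^ 2
      ≤ 16 * R0 ^ 2 * (Lh * (y ⬝ᵥ y) + ∑ v ∈ lvl k (i + 1), (inc S v ⬝ᵥ y) ^ 2))
    {K : ℕ} (hK : ∀ v, k v < K) {N T0 : ℝ}
    (hN : (Fintype.card V : ℝ) + Fintype.card (J ⊕ V) + 3 ≤ N)
    (hT0 : √(32 * t) * (C * (LL (16 * R0 ^ 2 * Lh * Λ) N * √(LL (16 * R0 ^ 2 * Lh * Λ) N))) ≤ T0)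
    (hT00 : 0 ≤ T0) (hε : K * (T0 / √Λ) ≤ 1) :
    ∃ χ : V → ℝ, (∀ v, |χ v| = 1) ∧ ∀ j, |∑ v ∈ S j, χ v| ≤ T0 * (K / √Λ + 5) := by
  classical
  have hΛ1 : (1 : ℝ) ≤ Λ := by exact_mod_cast hΛ
  have hΛ0 : (0 : ℝ) < Λ := by linarith
  have hsΛ : 0 < √(Λ : ℝ) := Real.sqrt_pos.2 hΛ0
  have ht1 : (1 : ℝ) ≤ t := by exact_mod_cast ht
  have hR1' : (1 : ℝ) ≤ R0 := by
    have : 1 ≤ R0 := by omega
    exact_mod_cast this
  have hLh1 : (1 : ℝ) ≤ Lh := by exact_mod_cast hLh
  set B : ℝ := 16 * R0 ^ 2 * Lh with hB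
  have hB1 : 1 ≤ B := by
    rw [hB]
    have : (1 : ℝ) ≤ R0 ^ 2 := one_le_pow₀ hR1'
    nlinarith
  have hBΛ : 1 ≤ B * Λ := by nlinarith
  set ε := T0 / √(Λ : ℝ) with hεd
  have hε0 : 0 ≤ ε := by positivity
  have key : ∀ i : ℕ, i ≤ K → ∃ x : V → ℝ, (∀ v, k v < i → |x v| = 1) ∧
      (∀ v, i ≤ k v → |x v| ≤ i * ε) ∧
      ∀ j, |∑ v ∈ S j, x v| ≤ T0 * ∑ m ∈ range i,
        (if ∃ v ∈ S j, m ≤ k v then √(ridge Λ R0 (S j) k (m + 1) / Λ) else 0) := by
    intro i
    induction i with
    | zero =>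
      intro _
      refine ⟨fun _ => 0, fun v hv => absurd hv (Nat.not_lt_zero _), fun v _ => by simp, fun j => by simp⟩
    | succ i ih =>
      intro hiK
      obtain ⟨x, x1, x2, x3⟩ := ih (by omega)
      have hxall : ∀ v, |x v| ≤ 1 := by
        intro v
        rcases Nat.lt_or_ge (k v) i with h | h
        · exact (x1 v h).le
        · refine (x2 v h).trans (le_trans ?_ hε)
          apply mul_le_mul_of_nonneg_right _ hε0
          have : i ≤ K := by omega
          exact_mod_cast this
      set lam : J → ℝ := fun j => ridge Λ R0 (S j) k (i + 1) with hlam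
      have hlam1 : ∀ j, 1 ≤ lam j := fun j => ridge_ge_one hΛ _ _ _
      have hlamΛ : ∀ j, lam j ≤ Λ := fun j => ridge_le hΛ (by omega) _ _ _
      have hdis : Disjoint (exq k i) (lvl k (i + 1)) := by
        rw [Finset.disjoint_left]
        intro v hv hv'
        simp only [exq, lvl, mem_filter, mem_univ, true_and] at hv hv'
        omega
      obtain ⟨c, c1, c2, c3, c4, c5⟩ := hR1 V J (inc S) (exq k i) (lvl k (i + 1)) lam Λ (32 * t) B
        hdis hΛ1 (by positivity) (by linarith) hlam1 hlamΛ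
        (fun u hu => P1 i u (by simpa [exq] using hu))
        (fun y => by
          refine (P3 i y).trans ?_
          have e1 : ∑ j, y j ^ 2 ≤ ∑ j, lam j * y j ^ 2 :=
            Finset.sum_le_sum fun j _ => le_mul_of_one_le_left (sq_nonneg _) (hlam1 j)
          have e2 : y ⬝ᵥ y = ∑ j, y j ^ 2 := by
            unfold dotProduct
            exact Finset.sum_congr rfl fun j _ => by ring
          have e3 : 0 ≤ ∑ v ∈ lvl k (i + 1), (inc S v ⬝ᵥ y) ^ 2 :=
            Finset.sum_nonneg fun _ _ => sq_nonneg _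
          rw [e2, hB]
          have e4 : (Lh : ℝ) * ∑ j, y j ^ 2 + ∑ v ∈ lvl k (i + 1), (inc S v ⬝ᵥ y) ^ 2
              ≤ Lh * (∑ j, lam j * y j ^ 2 + ∑ v ∈ lvl k (i + 1), (inc S v ⬝ᵥ y) ^ 2) := by
            rw [mul_add]
            apply add_le_add
            · exact mul_le_mul_of_nonneg_left e1 (by linarith)
            · exact le_mul_of_one_le_left e3 hLh1
          calc 16 * (R0 : ℝ) ^ 2 * ((Lh : ℝ) * ∑ j, y j ^ 2 + ∑ v ∈ lvl k (i + 1), (inc S v ⬝ᵥ y) ^ 2)
              ≤ 16 * (R0 : ℝ) ^ 2 * (Lh * (∑ j, lam j * y j ^ 2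
                + ∑ v ∈ lvl k (i + 1), (inc S v ⬝ᵥ y) ^ 2)) :=
                mul_le_mul_of_nonneg_left e4 (by positivity)
            _ = _ := by ring)
      set w : ℝ := √(32 * (t : ℝ)) with hw
      have hw2 : w ^ 2 = 32 * t := Real.sq_sqrt (by positivity)
      have hw0 : 0 < w := Real.sqrt_pos.2 (by positivity)
      have hw1 : 1 ≤ w ^ 2 := by rw [hw2]; linarith
      obtain ⟨y, y1, y2⟩ := hRT V (J ⊕ V) (fun r u => c r u / w) x (B * Λ) N hBΛ
        (by exact hN)
        (fun u => by
          have e : ∑ r, (c r u / w) ^ 2 = (∑ r, c r u ^ 2) / w ^ 2 := by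
            rw [Finset.sum_div]; exact Finset.sum_congr rfl fun r _ => by rw [div_pow]
          rw [e, hw2, div_le_one (by positivity)]
          exact c2 u)
        (fun r => by
          have e : ∑ u, (c r u / w) ^ 2 = (∑ u, c r u ^ 2) / w ^ 2 := by
            rw [Finset.sum_div]; exact Finset.sum_congr rfl fun r _ => by rw [div_pow]
          rw [e]
          exact (div_le_self (Finset.sum_nonneg fun _ _ => sq_nonneg _) hw1).trans (c3 r)) hxall
      have hcξ : ∀ r, |∑ u, c r u * (y u - x u)| ≤ T0 := by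
        intro r
        have h1 := y2 r
        have e : ∑ u, c r u / w * (y u - x u) = (∑ u, c r u * (y u - x u)) / w := by
          rw [Finset.sum_div]; exact Finset.sum_congr rfl fun u _ => by ring
        rw [e, abs_div, abs_of_pos hw0, div_le_iff₀ hw0] at h1
        refine h1.trans (le_trans (le_of_eq ?_) hT0)
        rw [hw, hB]
        ring
      obtain ⟨δ, d1, d2, d3⟩ := c5 (fun u => y u - x u)
      refine ⟨fun v => if v ∈ exq k i then y v else x v + δ v, fun v hv => ?_, fun v hv => ?_,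
        fun j => ?_⟩
      · by_cases h : v ∈ exq k i
        · simp only [h, if_true]; exact y1 v
        · simp only [h, if_false]
          have h2 : k v ≠ i := fun h3 => h (by simp [exq, h3])
          have h3 : v ∉ lvl k (i + 1) := by
            simp only [lvl, mem_filter, mem_univ, true_and]; omega
          rw [d1 v h3, add_zero]
          exact x1 v (by omega)
      · have h : v ∉ exq k i := by
          simp only [exq, mem_filter, mem_univ, true_and]; omega
        simp only [h, if_false]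
        refine (abs_add_le _ _).trans ?_
        have h1 := x2 v (by omega)
        have h2 : |δ v| ≤ ε := by
          rw [hεd, le_div_iff₀ hsΛ, mul_comm]
          exact (d2 v).trans (hcξ _)
        push_cast
        linarith
      · set y' : V → ℝ := fun v => if v ∈ exq k i then y v else x v + δ v with hy'
        have hdiff : ∑ v ∈ S j, y' v = ∑ v ∈ S j, x v
            + √(lam j / Λ) * ∑ u, c (Sum.inl j) u * (y u - x u) := by
          rw [← d3 j]
          have e1 : ∀ U : Finset V, ∀ f : V → ℝ, ∑ u ∈ U, inc S u j * f u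
              = ∑ v ∈ S j, if v ∈ U then f v else 0 := by
            intro U f
            rw [← Finset.sum_filter]
            have : ∀ u, inc S u j * f u = if u ∈ S j then f u else 0 := by
              intro u; unfold inc; split_ifs <;> simp
            rw [Finset.sum_congr rfl fun u _ => this u, ← Finset.sum_filter]
            congr 1
            ext v; simp [and_comm]
          rw [e1, e1, ← Finset.sum_add_distrib, ← Finset.sum_add_distrib]
          refine Finset.sum_congr rfl fun v _ => ?_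
          by_cases h : v ∈ exq k i
          · have h3 : v ∉ lvl k (i + 1) := Finset.disjoint_left.1 hdis h
            simp only [hy', h, h3, if_true, if_false]
            ring
          · by_cases h3 : v ∈ lvl k (i + 1)
            · simp only [hy', h, h3, if_true, if_false]
              ring
            · simp only [hy', h, h3, if_false, d1 v h3]
              ring
        rw [hdiff, Finset.sum_range_succ, mul_add]
        refine (abs_add_le _ _).trans (add_le_add (x3 j) ?_)
        by_cases hact : ∃ v ∈ S j, i ≤ k v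
        · rw [if_pos hact, abs_mul, abs_of_nonneg (Real.sqrt_nonneg _), mul_comm]
          exact mul_le_mul_of_nonneg_right (hcξ _) (Real.sqrt_nonneg _)
        · rw [if_neg hact]
          have h0 : ∀ u, c (Sum.inl j) u = 0 := by
            apply c4 j
            intro v hv
            unfold inc
            rw [if_neg]
            intro hvS
            apply hact
            refine ⟨v, hvS, ?_⟩
            rw [mem_union] at hv
            rcases hv with hv | hv
            · simp only [exq, mem_filter, mem_univ, true_and] at hv; omega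
            · simp only [lvl, mem_filter, mem_univ, true_and] at hv; omega
          have : ∑ u, c (Sum.inl j) u * (y u - x u) = 0 :=
            Finset.sum_eq_zero fun u _ => by rw [h0 u, zero_mul]
          rw [this, mul_zero, abs_zero, mul_zero]
  obtain ⟨χ, k1, -, k3⟩ := key K le_rfl
  refine ⟨χ, fun v => k1 v (hK v), fun j => (k3 j).trans ?_⟩
  exact mul_le_mul_of_nonneg_left (acc S hΛ hR P2 P3 j K) hT00

end Pool.Agent.Helper50.BO
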