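import Pool.Agent.Helper50.BO.AccP

namespace Pool.Agent.Helper50.BO

open Matrix Finset Pool.Agent.Helper66.BO Pool.Agent.Helper60.BO

variable {V J A : Type} [Fintype V] [Fintype J] [Fintype A] [DecidableEq V] [DecidableEq J]

theorem roundsP (hR1 : R1P) {C : ℝ} (hRT : RTP C) (S : J → Finset V) {t R0 Lh : ℕ}
    {Λ s : A → ℝ} {k : V → ℕ} (hA : Nonempty A) (ht : 1 ≤ t) (hR : 1 ≤ R0) (hLh : 1 ≤ Lh)
    {Λm sm β0 Θ : ℝ} (hΛ1 : ∀ x, 1 ≤ Λ x) (hΛm : ∀ x, Λ x ≤ Λm)
    (hs : ∀ x, s x ≤ sm) (hsm : sm ≤ R0) (hβ1 : 1 ≤ β0) (hβ : ∀ x, β0 ^ 2 ≤ Λ x)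
    (hΘ1 : 1 ≤ Θ) (hΘg : ∀ x, 2 * (β0 * √(64 * t / Λ x)) ≤ Θ)
    (hΘ : ∀ Y : ℝ, 0 ≤ Y → Y < sm → 2 / Fintype.card A * ∑ x, min √((if s x ≤ Y then 1 else Λ x)
      * (64 * t) / Λ x) (1 + √(Y * (64 * t) / Λ x)) ≤ Θ)
    (P1 : ∀ i u, k u = i → Fintype.card A ≤ 2 * (Finset.univ.filter fun x =>
      Λ x * lv (LMP S (Λ x) (s x) R0 k (i + 1)) (inc S u) ≤ 64 * t).card)
    (P3 : ∀ i, ∀ y : J → ℝ, ∑ u ∈ exq k i, (inc S u ⬝ᵥ y) ^ 2
      ≤ 16 * R0 ^ 2 * (Lh * (y ⬝ᵥ y) + ∑ v ∈ lvl k (i + 1), (inc S v ⬝ᵥ y) ^ 2))
    {K : ℕ} (hK : ∀ v, k v < K) {N T0 : ℝ}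
    (hN : (Fintype.card V : ℝ) + Fintype.card (J ⊕ V) + 3 ≤ N)
    (hT0 : C * (√(64 * t) + Θ * (1 + gs (LL (64 * t * (2 * (16 * R0 ^ 2 * Lh) * Λm)) N))) ≤ T0)
    (hC : 0 ≤ C) (hT00 : 0 ≤ T0) (hε : K * (T0 / β0) ≤ 1) :
    ∃ χ : V → ℝ, (∀ v, |χ v| = 1) ∧ ∀ j, |∑ v ∈ S j, χ v| ≤ T0 * (K / β0 + 2) := by
  classical
  obtain ⟨x0⟩ := hA
  have hcA : (0 : ℝ) < Fintype.card A := by
    have : 0 < Fintype.card A := Fintype.card_pos_iff.2 ⟨x0⟩
    exact_mod_cast this
  have hβ0 : 0 < β0 := by linarith
  have ht1 : (1 : ℝ) ≤ t := by exact_mod_cast ht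
  have hR1' : (1 : ℝ) ≤ R0 := by exact_mod_cast hR
  have hLh1 : (1 : ℝ) ≤ Lh := by exact_mod_cast hLh
  have hΘ0 : 0 < Θ := by linarith
  have hΛm1 : 1 ≤ Λm := (hΛ1 x0).trans (hΛm x0)
  set B : ℝ := 16 * R0 ^ 2 * Lh with hB
  have hB1 : 1 ≤ B := by
    rw [hB]
    have : (1 : ℝ) ≤ R0 ^ 2 := one_le_pow₀ hR1'
    nlinarith
  have hBΛ : 1 ≤ 2 * B * Λm := by nlinarith
  set ε := T0 / β0 with hεd
  have hε0 : 0 ≤ ε := by positivity
  have key : ∀ i : ℕ, i ≤ K → ∃ x : V → ℝ, (∀ v, k v < i → |x v| = 1) ∧
      (∀ v, i ≤ k v → |x v| ≤ i * ε) ∧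
      ∀ j, |∑ v ∈ S j, x v| ≤ T0 * ∑ m ∈ range i,
        (if ∃ v ∈ S j, m ≤ k v then (if sm ≤ yS R0 (S j) k (m + 1) then 1 / β0 else 1) else 0) := by
    intro i
    induction i with
    | zero =>
      intro _
      refine ⟨fun _ => 0, fun v hv => absurd hv (Nat.not_lt_zero _), fun v _ => by simp, fun j => by simp⟩
    | succ i ih =>
      intro hiK
      obtain ⟨x, x1, x2, x3⟩ := ih (by omega)
      have hxall : ∀ v, |x v| ≤ 1 := by
        intro v
        rcases Nat.lt_or_ge (k v) i with h | h
        · exact (x1 v h).le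
        · refine (x2 v h).trans (le_trans ?_ hε)
          apply mul_le_mul_of_nonneg_right _ hε0
          have : i ≤ K := by omega
          exact_mod_cast this
      set lam : A → J → ℝ := fun a j => ridgeP (Λ a) (s a) R0 (S j) k (i + 1) with hlam
      have hlam1 : ∀ a j, 1 ≤ lam a j := by
        intro a j
        simp only [hlam, ridgeP]
        split_ifs
        · exact le_rfl
        · exact hΛ1 a
      set β : J → ℝ := fun j => if sm ≤ yS R0 (S j) k (i + 1) then β0 else 1 with hβd
      have hβpos : ∀ j, 0 < β j := by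
        intro j; simp only [hβd]; split_ifs
        · exact hβ0
        · exact one_pos
      have hβlam : ∀ a j, β j ^ 2 * lam a j ≤ Λ a := by
        intro a j
        simp only [hβd, hlam, ridgeP]
        by_cases h : sm ≤ yS R0 (S j) k (i + 1)
        · rw [if_pos h, if_pos ((hs a).trans h), mul_one]
          exact hβ a
        · rw [if_neg h, one_pow, one_mul]
          split_ifs
          · exact hΛ1 a
          · exact le_rfl
      have hdis : Disjoint (exq k i) (lvl k (i + 1)) := by
        rw [Finset.disjoint_left]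
        intro v hv hv'
        simp only [exq, lvl, mem_filter, mem_univ, true_and] at hv hv'
        omega
      have hcardR : ∀ j, (((lvl k (i + 1)).filter fun v => inc S v j ≠ 0).card : ℝ)
          ≤ yS R0 (S j) k (i + 1) := by
        intro j
        refine le_trans (le_of_eq ?_) (card_le_yS hR (S j) k (i + 1))
        congr 2
        ext v
        simp only [lvl, inc, mem_filter, mem_univ, true_and, ne_eq, ite_eq_right_iff, one_ne_zero,
          imp_false, not_not]
        exact and_comm
      obtain ⟨c, c1, c2, c3, c3', c4, c5⟩ := hR1 V J A (inc S) (exq k i) (lvl k (i + 1)) lam Λ β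
        β0 (64 * t) B Λm Θ hdis ⟨x0⟩
        (fun v j => by unfold inc; split_ifs <;> simp) (by positivity) (by linarith) hΛ1 hΛm hlam1
        (fun j => (hβpos j).le) hβlam hβ0.le hβ
        (fun u hu => P1 i u (by simpa [exq] using hu))
        (fun y => by
          refine (P3 i y).trans ?_
          have e2 : y ⬝ᵥ y = ∑ j, y j ^ 2 := by
            unfold dotProduct
            exact Finset.sum_congr rfl fun j _ => by ring
          have e3 : 0 ≤ ∑ v ∈ lvl k (i + 1), (inc S v ⬝ᵥ y) ^ 2 :=
            Finset.sum_nonneg fun _ _ => sq_nonneg _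
          rw [e2, hB]
          have e4 : (Lh : ℝ) * ∑ j, y j ^ 2 + ∑ v ∈ lvl k (i + 1), (inc S v ⬝ᵥ y) ^ 2
              ≤ Lh * (∑ j, y j ^ 2 + ∑ v ∈ lvl k (i + 1), (inc S v ⬝ᵥ y) ^ 2) := by
            rw [mul_add]
            apply add_le_add le_rfl
            exact le_mul_of_one_le_left e3 hLh1
          calc 16 * (R0 : ℝ) ^ 2 * ((Lh : ℝ) * ∑ j, y j ^ 2 + ∑ v ∈ lvl k (i + 1), (inc S v ⬝ᵥ y) ^ 2)
              ≤ 16 * (R0 : ℝ) ^ 2 * (Lh * (∑ j, y j ^ 2
                + ∑ v ∈ lvl k (i + 1), (inc S v ⬝ᵥ y) ^ 2)) :=
                mul_le_mul_of_nonneg_left e4 (by positivity)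
            _ = _ := by ring)
        (fun j => by
          by_cases h : sm ≤ yS R0 (S j) k (i + 1)
          · have hβe : β j = β0 := by simp only [hβd]; rw [if_pos h]
            rw [hβe]
            have hle : ∀ a, min √(lam a j * (64 * t) / Λ a)
                (1 + √((((lvl k (i + 1)).filter fun v => inc S v j ≠ 0).card : ℝ) * (64 * t) / Λ a))
                ≤ Θ / (2 * β0) := by
              intro a
              refine (min_le_left _ _).trans ?_
              have e : lam a j = 1 := by
                simp only [hlam, ridgeP]; rw [if_pos ((hs a).trans h)]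
              rw [e, one_mul, le_div_iff₀ (by linarith)]
              have := hΘg a
              linarith
            have h2 := Finset.sum_le_sum fun a (_ : a ∈ (Finset.univ : Finset A)) => hle a
            rw [Finset.sum_const, Finset.card_univ, nsmul_eq_mul] at h2
            calc β0 * (2 / Fintype.card A * _)
                ≤ β0 * (2 / Fintype.card A * (Fintype.card A * (Θ / (2 * β0)))) := by
                  apply mul_le_mul_of_nonneg_left _ hβ0.le
                  exact mul_le_mul_of_nonneg_left h2 (by positivity)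
              _ = Θ := by field_simp
          · have hβe : β j = 1 := by simp only [hβd]; rw [if_neg h]
            rw [hβe, one_mul]
            refine le_trans ?_ (hΘ (yS R0 (S j) k (i + 1)) (yS_nonneg _ _ _ _) (not_le.1 h))
            apply mul_le_mul_of_nonneg_left _ (by positivity)
            refine Finset.sum_le_sum fun a _ => ?_
            apply min_le_min
            · simp only [hlam, ridgeP]; exact le_rfl
            · have hΛa : 0 < Λ a := by have := hΛ1 a; linarith
              apply add_le_add le_rfl
              apply Real.sqrt_le_sqrt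
              apply div_le_div_of_nonneg_right _ hΛa.le
              exact mul_le_mul_of_nonneg_right (hcardR j) (by positivity))
        (fun a => by
          have := hΘg a
          have h0 : 0 ≤ β0 * √(64 * t / Λ a) := by positivity
          linarith)
      set τ' : ℝ := max 1 (64 * t / Θ ^ 2) with hτ'
      have hΘ2 : 1 ≤ Θ ^ 2 := one_le_pow₀ hΘ1
      have hτB : τ' ≤ 64 * t * (2 * B * Λm) := by
        rw [hτ']
        apply max_le
        · nlinarith
        · calc 64 * (t : ℝ) / Θ ^ 2 ≤ 64 * t := div_le_self (by positivity) hΘ2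
            _ ≤ _ := le_mul_of_one_le_right (by positivity) hBΛ
      obtain ⟨y, y1, y2⟩ := hRT V (J ⊕ V) (fun r u => c r u / Θ) x (64 * t * (2 * B * Λm)) N τ'
        (le_max_left _ _) hτB (by exact hN)
        (fun r u => by
          rw [div_pow, div_le_one (by positivity), ← sq_abs]
          exact pow_le_pow_left₀ (abs_nonneg _) (c3' r u) 2)
        (fun u => by
          have e : ∑ r, (c r u / Θ) ^ 2 = (∑ r, c r u ^ 2) / Θ ^ 2 := by
            rw [Finset.sum_div]; exact Finset.sum_congr rfl fun r _ => by rw [div_pow]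
          rw [e]
          refine le_trans ?_ (le_max_right _ _)
          exact div_le_div_of_nonneg_right (c2 u) (by positivity))
        (fun r => by
          have e : ∑ u, (c r u / Θ) ^ 2 = (∑ u, c r u ^ 2) / Θ ^ 2 := by
            rw [Finset.sum_div]; exact Finset.sum_congr rfl fun r _ => by rw [div_pow]
          rw [e]
          refine (div_le_self (Finset.sum_nonneg fun _ _ => sq_nonneg _) hΘ2).trans ?_
          refine (c3 r).trans ?_
          exact le_mul_of_one_le_left (by linarith) (by linarith)) hxall
      have hcξ : ∀ r, |∑ u, c r u * (y u - x u)| ≤ T0 := by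
        intro r
        have h1 := y2 r
        have e : ∑ u, c r u / Θ * (y u - x u) = (∑ u, c r u * (y u - x u)) / Θ := by
          rw [Finset.sum_div]; exact Finset.sum_congr rfl fun u _ => by ring
        rw [e, abs_div, abs_of_pos hΘ0, div_le_iff₀ hΘ0] at h1
        refine h1.trans (le_trans ?_ hT0)
        have h2 : √τ' * Θ ≤ √(64 * t) + Θ := by
          have h3 : √τ' ≤ √(64 * t) / Θ + 1 := by
            rw [hτ']
            rw [Real.sqrt_le_left (by positivity)]
            apply max_le
            · have : 0 ≤ √(64 * (t : ℝ)) / Θ := by positivity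
              nlinarith
            · have h4 : (64 * (t : ℝ)) / Θ ^ 2 = (√(64 * t) / Θ) ^ 2 := by
                rw [div_pow, Real.sq_sqrt (by positivity)]
              rw [h4]
              have : 0 ≤ √(64 * (t : ℝ)) / Θ := by positivity
              nlinarith
          calc √τ' * Θ ≤ (√(64 * t) / Θ + 1) * Θ := mul_le_mul_of_nonneg_right h3 hΘ0.le
            _ = _ := by field_simp
        calc C * (√τ' + gs (LL (64 * t * (2 * B * Λm)) N)) * Θ
            = C * (√τ' * Θ + Θ * gs (LL (64 * t * (2 * B * Λm)) N)) := by ring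
          _ ≤ C * (√(64 * t) + Θ + Θ * gs (LL (64 * t * (2 * B * Λm)) N)) := by
              apply mul_le_mul_of_nonneg_left _ hC
              linarith
          _ = _ := by rw [hB]; ring
      obtain ⟨δ, d1, d2, d3⟩ := c5 (fun u => y u - x u)
      refine ⟨fun v => if v ∈ exq k i then y v else x v + δ v, fun v hv => ?_, fun v hv => ?_,
        fun j => ?_⟩
      · by_cases h : v ∈ exq k i
        · simp only [h, if_true]; exact y1 v
        · simp only [h, if_false]
          have h2 : k v ≠ i := fun h3 => h (by simp [exq, h3])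
          have h3 : v ∉ lvl k (i + 1) := by
            simp only [lvl, mem_filter, mem_univ, true_and]; omega
          rw [d1 v h3, add_zero]
          exact x1 v (by omega)
      · have h : v ∉ exq k i := by
          simp only [exq, mem_filter, mem_univ, true_and]; omega
        simp only [h, if_false]
        refine (abs_add_le _ _).trans ?_
        have h1 := x2 v (by omega)
        have h2 : |δ v| ≤ ε := by
          rw [hεd, le_div_iff₀ hβ0, mul_comm]
          exact (d2 v).trans (hcξ _)
        push_cast
        linarith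
      · set y' : V → ℝ := fun v => if v ∈ exq k i then y v else x v + δ v with hy'
        have hdiff : β j * (∑ v ∈ S j, y' v - ∑ v ∈ S j, x v)
            = ∑ u, c (Sum.inl j) u * (y u - x u) := by
          rw [← d3 j]
          congr 1
          have e1 : ∀ U : Finset V, ∀ f : V → ℝ, ∑ u ∈ U, inc S u j * f u
              = ∑ v ∈ S j, if v ∈ U then f v else 0 := by
            intro U f
            rw [← Finset.sum_filter]
            have : ∀ u, inc S u j * f u = if u ∈ S j then f u else 0 := by
              intro u; unfold inc; split_ifs <;> simp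
            rw [Finset.sum_congr rfl fun u _ => this u, ← Finset.sum_filter]
            congr 1
            ext v; simp [and_comm]
          rw [e1, e1, ← Finset.sum_add_distrib, ← Finset.sum_sub_distrib]
          refine Finset.sum_congr rfl fun v _ => ?_
          by_cases h : v ∈ exq k i
          · have h3 : v ∉ lvl k (i + 1) := Finset.disjoint_left.1 hdis h
            simp only [hy', h, h3, if_true, if_false]
            ring
          · by_cases h3 : v ∈ lvl k (i + 1)
            · simp only [hy', h, h3, if_true, if_false]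
              ring
            · simp only [hy', h, h3, if_false, d1 v h3]
              ring
        have hstep : |∑ v ∈ S j, y' v - ∑ v ∈ S j, x v| ≤ T0 * (if ∃ v ∈ S j, i ≤ k v then
            (if sm ≤ yS R0 (S j) k (i + 1) then 1 / β0 else 1) else 0) := by
          by_cases hact : ∃ v ∈ S j, i ≤ k v
          · rw [if_pos hact]
            have h1 : β j * |∑ v ∈ S j, y' v - ∑ v ∈ S j, x v| ≤ T0 := by
              have h2 : β j * |∑ v ∈ S j, y' v - ∑ v ∈ S j, x v|
                  = |β j * (∑ v ∈ S j, y' v - ∑ v ∈ S j, x v)| := by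
                rw [abs_mul, abs_of_pos (hβpos j)]
              rw [h2, hdiff]
              exact hcξ _
            by_cases h : sm ≤ yS R0 (S j) k (i + 1)
            · have hβe : β j = β0 := by simp only [hβd]; rw [if_pos h]
              rw [if_pos h, mul_one_div, le_div_iff₀ hβ0, mul_comm]
              rw [hβe] at h1
              exact h1
            · have hβe : β j = 1 := by simp only [hβd]; rw [if_neg h]
              rw [if_neg h, mul_one]
              rw [hβe, one_mul] at h1
              exact h1
          · rw [if_neg hact, mul_zero]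
            have h0 : ∀ u, c (Sum.inl j) u = 0 := by
              apply c4 j
              intro v hv
              unfold inc
              rw [if_neg]
              intro hvS
              apply hact
              refine ⟨v, hvS, ?_⟩
              rw [mem_union] at hv
              rcases hv with hv | hv
              · simp only [exq, mem_filter, mem_univ, true_and] at hv; omega
              · simp only [lvl, mem_filter, mem_univ, true_and] at hv; omega
            have h1 : ∑ u, c (Sum.inl j) u * (y u - x u) = 0 :=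
              Finset.sum_eq_zero fun u _ => by rw [h0 u, zero_mul]
            rw [h1] at hdiff
            rcases mul_eq_zero.1 hdiff with h2 | h2
            · exact absurd h2 (hβpos j).ne'
            · rw [h2, abs_zero]
        rw [Finset.sum_range_succ, mul_add]
        have e : ∑ v ∈ S j, y' v = ∑ v ∈ S j, x v + (∑ v ∈ S j, y' v - ∑ v ∈ S j, x v) := by ring
        rw [e]
        exact (abs_add_le _ _).trans (add_le_add (x3 j) hstep)
  obtain ⟨χ, k1, -, k3⟩ := key K le_rfl
  refine ⟨χ, fun v => k1 v (hK v), fun j => (k3 j).trans ?_⟩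
  exact mul_le_mul_of_nonneg_left (accP (S j) hR hsm hβ0 K) hT00

end Pool.Agent.Helper50.BO
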